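import Pool.Agent.DQG.Defs

open scoped TensorProduct Matrix.Norms.L2Operator ComplexOrder
open Coalgebra HopfAlgebra Matrix

namespace Pool.Agent.DQG

universe u

section
variable {A : Type u} [Ring A] [StarRing A] [HopfAlgebra ℂ A]
variable {ι κ : Type} [Fintype ι] [DecidableEq ι] [Fintype κ] [DecidableEq κ]

theorem IsUnitaryCorep.comul {u : Matrix ι ι A} (hu : IsUnitaryCorep u) (i j : ι) :
    comul (R := ℂ) (u i j) = ∑ k, u i k ⊗ₜ[ℂ] u k j := hu.1 i j

theorem IsUnitaryCorep.sum_star_mul {u : Matrix ι ι A} (hu : IsUnitaryCorep u) (i j : ι) :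
    ∑ k, star (u k i) * u k j = if i = j then 1 else 0 := by
  have h := congrFun (congrFun hu.2.1 i) j
  rw [Matrix.mul_apply, Matrix.one_apply] at h
  simpa [Matrix.conjTranspose_apply] using h

theorem IsUnitaryCorep.sum_mul_star {u : Matrix ι ι A} (hu : IsUnitaryCorep u) (i j : ι) :
    ∑ k, u i k * star (u j k) = if i = j then 1 else 0 := by
  have h := congrFun (congrFun hu.2.2 i) j
  rw [Matrix.mul_apply, Matrix.one_apply] at h
  simpa [Matrix.conjTranspose_apply] using h

theorem one_ne_zero' : (1 : A) ≠ 0 := by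
  intro h
  have h1 : counit (R := ℂ) (1 : A) = 1 := Bialgebra.counit_one
  rw [h, map_zero] at h1
  exact zero_ne_one h1

theorem smul_one_inj {a b : ℂ} (h : a • (1 : A) = b • (1 : A)) : a = b := by
  have h1 := congrArg (counit (R := ℂ)) h
  simpa using h1

theorem IsUnitaryCorep.counit_eq {u : Matrix ι ι A} (hu : IsUnitaryCorep u) (i j : ι) :
    counit (R := ℂ) (u i j) = if i = j then 1 else 0 := by
  have h1 : ∀ j, ∑ k, counit (R := ℂ) (u i k) • u k j = u i j := by
    intro j
    have h := congrArg (TensorProduct.lid ℂ A) (Coalgebra.rTensor_counit_comul (R := ℂ) (u i j))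
    rw [hu.comul] at h
    simpa using h
  have h2 : ∑ k, counit (R := ℂ) (u i k) • ∑ l, u k l * star (u j l)
      = ∑ l, u i l * star (u j l) := by
    calc ∑ k, counit (R := ℂ) (u i k) • ∑ l, u k l * star (u j l)
        = ∑ l, (∑ k, counit (R := ℂ) (u i k) • u k l) * star (u j l) := by
          simp only [Finset.smul_sum, Finset.sum_mul, smul_mul_assoc]
          exact Finset.sum_comm
      _ = _ := by simp only [h1]
  simp only [hu.sum_mul_star] at h2
  apply smul_one_inj (A := A)
  have h3 : ∑ k, counit (R := ℂ) (u i k) • (if k = j then (1 : A) else 0)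
      = counit (R := ℂ) (u i j) • 1 := by simp
  rw [h3] at h2
  rw [h2]
  split_ifs <;> simp

theorem IsUnitaryCorep.antipode_eq {u : Matrix ι ι A} (hu : IsUnitaryCorep u) (i j : ι) :
    antipode ℂ (u i j) = star (u j i) := by
  have h1 : ∀ l, ∑ k, antipode ℂ (u i k) * u k l = if i = l then 1 else 0 := by
    intro l
    have h := mul_antipode_rTensor_comul_apply (R := ℂ) (u i l)
    rw [hu.comul] at h
    simp only [map_sum, LinearMap.rTensor_tmul, LinearMap.mul'_apply, hu.counit_eq] at h
    rw [h]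
    split_ifs <;> simp
  calc antipode ℂ (u i j) = ∑ k, antipode ℂ (u i k) * (if k = j then 1 else 0) := by simp
    _ = ∑ k, antipode ℂ (u i k) * ∑ l, u k l * star (u j l) := by simp only [hu.sum_mul_star]
    _ = ∑ l, (∑ k, antipode ℂ (u i k) * u k l) * star (u j l) := by
        simp only [Finset.mul_sum, Finset.sum_mul, mul_assoc]
        exact Finset.sum_comm
    _ = star (u j i) := by simp [h1]

theorem conv_corep (x y : A →ₗ[ℂ] ℂ) {u : Matrix ι ι A} (hu : IsUnitaryCorep u) (i j : ι) :
    conv x y (u i j) = ∑ k, x (u i k) * y (u k j) := by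
  simp [conv, hu.comul]

theorem conv_of_repr (x y : A →ₗ[ℂ] ℂ) {a : A} {n : Type*} {s : Finset n} {p q : n → A}
    (h : Coalgebra.comul (R := ℂ) a = ∑ i ∈ s, p i ⊗ₜ[ℂ] q i) :
    conv x y a = ∑ i ∈ s, x (p i) * y (q i) := by
  simp [conv, h]

/-- The adjoint of a functional. -/
noncomputable def starF (hs : ∀ (c : ℂ) (a : A), star (c • a) = (starRingEnd ℂ c) • star a)
    (x : A →ₗ[ℂ] ℂ) : A →ₗ[ℂ] ℂ where
  toFun a := starRingEnd ℂ (x (star (antipode ℂ a)))
  map_add' a b := by simp
  map_smul' c a := by simp [hs]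

theorem starF_corep (hs : ∀ (c : ℂ) (a : A), star (c • a) = (starRingEnd ℂ c) • star a)
    (x : A →ₗ[ℂ] ℂ) {u : Matrix ι ι A} (hu : IsUnitaryCorep u) (i j : ι) :
    starF hs x (u i j) = starRingEnd ℂ (x (u j i)) := by
  simp [starF, hu.antipode_eq]

end

end Pool.Agent.DQG
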