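import Pool.Agent.DQG.Base

open scoped TensorProduct Matrix.Norms.L2Operator ComplexOrder
open Coalgebra HopfAlgebra Matrix

namespace Pool.Agent.DQG

universe u

section
variable {A : Type u} [Ring A] [StarRing A] [HopfAlgebra ℂ A]
variable {ι κ : Type} [Fintype ι] [DecidableEq ι] [Fintype κ] [DecidableEq κ]

/-- The tensor product of two matrices over `A`. -/
def tens (u : Matrix ι ι A) (v : Matrix κ κ A) : Matrix (ι × κ) (ι × κ) A :=
  Matrix.of fun p q => u p.1 q.1 * v p.2 q.2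

theorem tens_apply (u : Matrix ι ι A) (v : Matrix κ κ A) (p q : ι × κ) :
    tens u v p q = u p.1 q.1 * v p.2 q.2 := rfl

theorem IsUnitaryCorep.tens {u : Matrix ι ι A} (hu : IsUnitaryCorep u) {v : Matrix κ κ A}
    (hv : IsUnitaryCorep v) : IsUnitaryCorep (tens u v) := by
  refine ⟨?_, ?_, ?_⟩
  · intro p q
    rw [tens_apply, Bialgebra.comul_mul, hu.comul, hv.comul, Finset.sum_mul_sum,
      Fintype.sum_prod_type]
    simp only [Algebra.TensorProduct.tmul_mul_tmul, tens_apply]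
  · ext p q
    rw [Matrix.mul_apply, Fintype.sum_prod_type]
    simp only [Matrix.conjTranspose_apply, tens_apply, star_mul]
    rw [Finset.sum_comm]
    have h1 : ∀ b : κ, ∑ a : ι, star (v b p.2) * star (u a p.1) * (u a q.1 * v b q.2)
        = star (v b p.2) * (if p.1 = q.1 then 1 else 0) * v b q.2 := by
      intro b
      rw [← hu.sum_star_mul p.1 q.1, Finset.mul_sum, Finset.sum_mul]
      exact Finset.sum_congr rfl fun a _ => by simp only [mul_assoc]
    simp only [h1]
    rw [Matrix.one_apply]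
    by_cases h : p.1 = q.1
    · simp only [h, if_true, mul_one, hv.sum_star_mul]
      by_cases h' : p.2 = q.2
      · rw [if_pos h', if_pos (Prod.ext h h')]
      · rw [if_neg h', if_neg (fun e => h' (congrArg Prod.snd e))]
    · simp only [if_neg h, mul_zero, zero_mul, Finset.sum_const_zero]
      rw [if_neg (fun e => h (congrArg Prod.fst e))]
  · ext p q
    rw [Matrix.mul_apply, Fintype.sum_prod_type]
    simp only [Matrix.conjTranspose_apply, tens_apply, star_mul]
    have h1 : ∀ a : ι, ∑ b : κ, u p.1 a * v p.2 b * (star (v q.2 b) * star (u q.1 a))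
        = u p.1 a * (if p.2 = q.2 then 1 else 0) * star (u q.1 a) := by
      intro a
      rw [← hv.sum_mul_star p.2 q.2, Finset.mul_sum, Finset.sum_mul]
      exact Finset.sum_congr rfl fun b _ => by simp only [mul_assoc]
    simp only [h1]
    rw [Matrix.one_apply]
    by_cases h : p.2 = q.2
    · simp only [h, if_true, mul_one, hu.sum_mul_star]
      by_cases h' : p.1 = q.1
      · rw [if_pos h', if_pos (Prod.ext h' h)]
      · rw [if_neg h', if_neg (fun e => h' (congrArg Prod.fst e))]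
    · simp only [if_neg h, mul_zero, zero_mul, Finset.sum_const_zero]
      rw [if_neg (fun e => h (congrArg Prod.snd e))]

theorem isUnitaryCorep_one : IsUnitaryCorep (1 : Matrix Unit Unit A) := by
  refine ⟨?_, ?_, ?_⟩
  · intro i j
    simp [Algebra.TensorProduct.one_def]
  · simp
  · simp

theorem IsUnitaryCorep.directSum {u : Matrix ι ι A} (hu : IsUnitaryCorep u) {v : Matrix κ κ A}
    (hv : IsUnitaryCorep v) : IsUnitaryCorep (Matrix.fromBlocks u 0 0 v) := by
  refine ⟨?_, ?_, ?_⟩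
  · intro i j
    rw [Fintype.sum_sum_type]
    rcases i with i | i <;> rcases j with j | j <;> simp [hu.comul, hv.comul]
  · rw [Matrix.fromBlocks_conjTranspose, Matrix.fromBlocks_multiply]
    simp [hu.2.1, hv.2.1]
  · rw [Matrix.fromBlocks_conjTranspose, Matrix.fromBlocks_multiply]
    simp [hu.2.2, hv.2.2]

theorem map_conv (x y : A →ₗ[ℂ] ℂ) {u : Matrix ι ι A} (hu : IsUnitaryCorep u) :
    u.map (conv x y) = u.map x * u.map y := by
  ext i j
  rw [Matrix.map_apply, conv_corep x y hu, Matrix.mul_apply]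
  rfl

theorem map_starF (hs : ∀ (c : ℂ) (a : A), star (c • a) = (starRingEnd ℂ c) • star a)
    (x : A →ₗ[ℂ] ℂ) {u : Matrix ι ι A} (hu : IsUnitaryCorep u) :
    u.map (starF hs x) = (u.map x)ᴴ := by
  ext i j
  rw [Matrix.map_apply, starF_corep hs x hu, Matrix.conjTranspose_apply, Matrix.map_apply]
  rfl

theorem map_counit {u : Matrix ι ι A} (hu : IsUnitaryCorep u) :
    u.map (counit (R := ℂ) : A →ₗ[ℂ] ℂ) = 1 := by
  ext i j
  rw [Matrix.map_apply, hu.counit_eq, Matrix.one_apply]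

theorem isBdd_zero : IsBdd (0 : A →ₗ[ℂ] ℂ) := by
  refine ⟨0, fun ι _ _ u _ => ?_⟩
  have : u.map (0 : A →ₗ[ℂ] ℂ) = 0 := by ext i j; simp
  rw [this, norm_zero]

theorem IsBdd.add {x y : A →ₗ[ℂ] ℂ} (hx : IsBdd x) (hy : IsBdd y) : IsBdd (x + y) := by
  obtain ⟨C, hC⟩ := hx
  obtain ⟨D, hD⟩ := hy
  refine ⟨C + D, fun ι _ _ u hu => ?_⟩
  have : u.map (x + y) = u.map x + u.map y := by ext i j; simp
  rw [this]
  exact (norm_add_le _ _).trans (add_le_add (hC ι u hu) (hD ι u hu))

theorem IsBdd.smul {x : A →ₗ[ℂ] ℂ} (hx : IsBdd x) (c : ℂ) : IsBdd (c • x) := by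
  obtain ⟨C, hC⟩ := hx
  refine ⟨‖c‖ * C, fun ι _ _ u hu => ?_⟩
  have : u.map (c • x) = c • u.map x := by ext i j; simp
  rw [this, norm_smul]
  exact mul_le_mul_of_nonneg_left (hC ι u hu) (norm_nonneg _)

theorem isBdd_sum {σ : Type*} (s : Finset σ) (x : σ → A →ₗ[ℂ] ℂ) (h : ∀ i ∈ s, IsBdd (x i)) :
    IsBdd (∑ i ∈ s, x i) := by
  classical
  induction s using Finset.induction_on with
  | empty => simpa using isBdd_zero
  | insert a s ha ih =>
    rw [Finset.sum_insert ha]
    exact (h a (Finset.mem_insert_self _ _)).add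
      (ih fun i hi => h i (Finset.mem_insert_of_mem hi))

theorem IsBdd.conv {x y : A →ₗ[ℂ] ℂ} (hx : IsBdd x) (hy : IsBdd y) : IsBdd (conv x y) := by
  obtain ⟨C, hC⟩ := hx
  obtain ⟨D, hD⟩ := hy
  refine ⟨C * D, fun ι _ _ u hu => ?_⟩
  rw [map_conv x y hu]
  exact (Matrix.l2_opNorm_mul _ _).trans
    (mul_le_mul (hC ι u hu) (hD ι u hu) (norm_nonneg _) ((norm_nonneg _).trans (hC ι u hu)))

theorem IsBdd.starF (hs : ∀ (c : ℂ) (a : A), star (c • a) = (starRingEnd ℂ c) • star a)
    {x : A →ₗ[ℂ] ℂ} (hx : IsBdd x) : IsBdd (starF hs x) := by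
  obtain ⟨C, hC⟩ := hx
  refine ⟨C, fun ι _ _ u hu => ?_⟩
  rw [map_starF hs x hu, Matrix.l2_opNorm_conjTranspose]
  exact hC ι u hu

theorem isBdd_counit : IsBdd (counit (R := ℂ) : A →ₗ[ℂ] ℂ) := by
  refine ⟨1, fun ι _ _ u hu => ?_⟩
  rw [map_counit hu]
  rcases isEmpty_or_nonempty ι with h | h
  · have : (1 : Matrix ι ι ℂ) = 0 := Subsingleton.elim _ _
    rw [this, norm_zero]
    exact zero_le_one
  · exact le_of_eq CStarRing.norm_one

theorem norm_incl_le (k : κ) :
    ‖(Matrix.of fun (p : ι × κ) (i : ι) => if p = (i, k) then (1 : ℂ) else 0)‖ ≤ 1 := by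
  set V : Matrix (ι × κ) ι ℂ := Matrix.of fun (p : ι × κ) (i : ι) => if p = (i, k) then (1 : ℂ) else 0
    with hV
  have h1 : Vᴴ * V = 1 := by
    ext i j
    rw [Matrix.mul_apply, Matrix.one_apply]
    simp only [hV, Matrix.conjTranspose_apply, Matrix.of_apply]
    have : ∀ p : ι × κ, star (if p = (i, k) then (1 : ℂ) else 0) * (if p = (j, k) then 1 else 0)
        = if p = (i, k) then (if i = j then 1 else 0) else 0 := by
      intro p
      by_cases hp : p = (i, k)
      · subst hp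
        simp
      · simp [hp]
    simp only [this]
    simp
  have h2 := Matrix.l2_opNorm_conjTranspose_mul_self V
  rw [h1] at h2
  rcases isEmpty_or_nonempty ι with h | h
  · have : V = 0 := by ext p i; exact (h.false i).elim
    rw [this, norm_zero]
    exact zero_le_one
  · rw [CStarRing.norm_one] at h2
    nlinarith [norm_nonneg V]

theorem norm_sub_le (M : Matrix (ι × κ) (ι × κ) ℂ) (k l : κ) :
    ‖(Matrix.of fun (i j : ι) => M (i, k) (j, l))‖ ≤ ‖M‖ := by
  set V : κ → Matrix (ι × κ) ι ℂ := fun k =>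
    Matrix.of fun (p : ι × κ) (i : ι) => if p = (i, k) then (1 : ℂ) else 0 with hV
  have h1 : (Matrix.of fun (i j : ι) => M (i, k) (j, l)) = (V k)ᴴ * M * V l := by
    ext i j
    simp only [hV, Matrix.of_apply, Matrix.mul_apply, Matrix.conjTranspose_apply]
    simp
  rw [h1]
  have hk : ‖(V k)ᴴ‖ ≤ 1 := by
    rw [Matrix.l2_opNorm_conjTranspose]
    exact norm_incl_le k
  have hl : ‖V l‖ ≤ 1 := norm_incl_le l
  calc ‖(V k)ᴴ * M * V l‖ ≤ ‖(V k)ᴴ * M‖ * ‖V l‖ := Matrix.l2_opNorm_mul _ _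
    _ ≤ (‖(V k)ᴴ‖ * ‖M‖) * ‖V l‖ :=
        mul_le_mul_of_nonneg_right (Matrix.l2_opNorm_mul _ _) (norm_nonneg _)
    _ ≤ (1 * ‖M‖) * 1 := by gcongr
    _ = ‖M‖ := by ring

/-- Right translation of a functional. -/
def rightT (x : A →ₗ[ℂ] ℂ) (b : A) : A →ₗ[ℂ] ℂ := x ∘ₗ LinearMap.mulRight ℂ b

/-- Left translation of a functional. -/
def leftT (x : A →ₗ[ℂ] ℂ) (a : A) : A →ₗ[ℂ] ℂ := x ∘ₗ LinearMap.mulLeft ℂ a

theorem rightT_apply (x : A →ₗ[ℂ] ℂ) (b a : A) : rightT x b a = x (a * b) := rfl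
theorem leftT_apply (x : A →ₗ[ℂ] ℂ) (a b : A) : leftT x a b = x (a * b) := rfl

theorem IsBdd.rightT (hA : IsCQG A) {x : A →ₗ[ℂ] ℂ} (hx : IsBdd x) (b : A) :
    IsBdd (rightT x b) := by
  have hb : b ∈ Submodule.span ℂ {c : A | ∃ (ι : Type) (_ : Fintype ι) (_ : DecidableEq ι)
    (u : Matrix ι ι A), IsUnitaryCorep u ∧ ∃ i j, c = u i j} := by
    rw [hA.span]; trivial
  induction hb using Submodule.span_induction with
  | mem c hc =>
    obtain ⟨κ, _, _, v, hv, k, l, rfl⟩ := hc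
    obtain ⟨C, hC⟩ := hx
    refine ⟨C, fun ι _ _ u hu => ?_⟩
    have h1 : u.map (DQG.rightT x (v k l))
        = Matrix.of fun (i j : ι) => ((DQG.tens u v).map x) (i, k) (j, l) := by
      ext i j
      rfl
    rw [h1]
    exact (norm_sub_le _ k l).trans (hC (ι × κ) _ (hu.tens hv))
  | zero =>
    have : DQG.rightT x (0 : A) = 0 := by ext a; simp [rightT_apply]
    rw [this]
    exact isBdd_zero
  | add a b _ _ ha hb =>
    have : DQG.rightT x (a + b) = DQG.rightT x a + DQG.rightT x b := by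
      ext c; simp [rightT_apply, mul_add]
    rw [this]
    exact ha.add hb
  | smul c a _ ha =>
    have : DQG.rightT x (c • a) = c • DQG.rightT x a := by
      ext d; simp [rightT_apply]
    rw [this]
    exact ha.smul c

end

end Pool.Agent.DQG
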