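import Pool.Agent.DQG.Bdd

open scoped TensorProduct Matrix.Norms.L2Operator ComplexOrder MatrixOrder Kronecker
open Coalgebra HopfAlgebra Matrix

namespace Pool.Agent.DQG

universe u

section
variable {A : Type u} [Ring A] [StarRing A] [HopfAlgebra ℂ A]
variable {ι κ : Type} [Fintype ι] [DecidableEq ι] [Fintype κ] [DecidableEq κ]

theorem IsCQG.comul_star' (hA : IsCQG A) {σ : Type*} [Fintype σ] {a : A} {x y : σ → A}
    (h : comul (R := ℂ) a = ∑ i, x i ⊗ₜ[ℂ] y i) :
    comul (R := ℂ) (star a) = ∑ i, star (x i) ⊗ₜ[ℂ] star (y i) := by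
  set e := Fintype.equivFin σ with he
  have h1 : comul (R := ℂ) a = ∑ i, x (e.symm i) ⊗ₜ[ℂ] y (e.symm i) := by
    rw [h]
    exact (Equiv.sum_comp e.symm (fun i => x i ⊗ₜ[ℂ] y i)).symm
  rw [hA.comul_star a _ _ _ h1]
  exact Equiv.sum_comp e.symm (fun i => star (x i) ⊗ₜ[ℂ] star (y i))

/-- `Q` is an invariant form of the conjugate of the corepresentation `u`. -/
def InvForm (u : Matrix ι ι A) (Q : Matrix ι ι ℂ) : Prop :=
  ∀ i j, ∑ a, ∑ b, Q a b • (u a i * star (u b j)) = Q i j • (1 : A)

theorem exists_invForm (hA : IsCQG A) {u : Matrix ι ι A} (hu : IsUnitaryCorep u) :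
    ∃ Q : Matrix ι ι ℂ, Q.PosDef ∧ InvForm u Q := by
  obtain ⟨h, h1, hinv, hpos⟩ := hA.haar
  have hinv' : ∀ {σ : Type} [Fintype σ] (a : A) (x y : σ → A),
      comul (R := ℂ) a = ∑ i, x i ⊗ₜ[ℂ] y i → ∑ i, h (x i) • y i = h a • (1 : A) := by
    intro σ _ a x y hxy
    set e := Fintype.equivFin σ with he
    have h2 : comul (R := ℂ) a = ∑ i, x (e.symm i) ⊗ₜ[ℂ] y (e.symm i) := by
      rw [hxy]
      exact (Equiv.sum_comp e.symm (fun i => x i ⊗ₜ[ℂ] y i)).symm
    rw [← (hinv a _ _ _ h2).1]
    exact (Equiv.sum_comp e.symm (fun i => h (x i) • y i)).symm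
  have hreal : ∀ a : A, 0 ≤ h (a * star a) := by
    intro a
    by_cases ha : a = 0
    · simp [ha]
    · have := hpos (star a) (by simpa using ha)
      rw [star_star] at this
      exact this.le
  have hstar : ∀ a b : A, h (b * star a) = starRingEnd ℂ (h (a * star b)) := by
    -- polarization
    intro a b
    have e1 := hreal (a + b)
    have e2 := hreal (a + Complex.I • b)
    have e3 := hreal a
    have e4 := hreal b
    have hsI : star (Complex.I • b) = (-Complex.I) • star b := by
      rw [hA.star_smul]; simp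
    rw [star_add, add_mul, mul_add, mul_add, map_add, map_add, map_add] at e1
    rw [star_add, hsI, add_mul, mul_add, mul_add, map_add, map_add, map_add,
      mul_smul_comm, smul_mul_assoc, smul_mul_smul_comm, map_smul, map_smul, map_smul] at e2
    simp only [smul_eq_mul] at e2
    rw [Complex.nonneg_iff] at e1 e2 e3 e4
    obtain ⟨_, i1⟩ := e1
    obtain ⟨_, i2⟩ := e2
    obtain ⟨_, i3⟩ := e3
    obtain ⟨_, i4⟩ := e4
    simp only [Complex.add_im, Complex.mul_im, Complex.neg_re, Complex.neg_im, Complex.I_re,
      Complex.I_im, Complex.mul_re] at i1 i2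
    apply Complex.ext
    · simp only [Complex.conj_re]
      linarith
    · simp only [Complex.conj_im]
      linarith
  set Q : Matrix ι ι ℂ := Matrix.of fun i j => ∑ k, h (u k i * star (u k j)) with hQ
  refine ⟨Q, ?_, ?_⟩
  · apply Matrix.PosDef.of_dotProduct_mulVec_pos
    · ext i j
      simp only [hQ, Matrix.conjTranspose_apply, Matrix.of_apply]
      rw [star_sum]
      exact Finset.sum_congr rfl fun k _ => (hstar _ _).symm
    · intro x hx
      have key : star x ⬝ᵥ (Q *ᵥ x)
          = ∑ k, h ((∑ i, star (x i) • u k i) * star (∑ j, star (x j) • u k j)) := by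
        have e1 : ∀ k, h ((∑ i, star (x i) • u k i) * star (∑ j, star (x j) • u k j))
            = ∑ i, ∑ j, star (x i) * x j * h (u k i * star (u k j)) := by
          intro k
          rw [star_sum, Finset.sum_mul_sum, map_sum]
          refine Finset.sum_congr rfl fun i _ => ?_
          rw [map_sum]
          refine Finset.sum_congr rfl fun j _ => ?_
          rw [hA.star_smul, smul_mul_smul_comm, map_smul, smul_eq_mul]
          simp
        simp only [e1]
        rw [Finset.sum_comm]
        simp only [dotProduct, Matrix.mulVec, hQ, Matrix.of_apply, Pi.star_apply]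
        refine Finset.sum_congr rfl fun i _ => ?_
        rw [Finset.sum_comm, Finset.mul_sum]
        refine Finset.sum_congr rfl fun j _ => ?_
        rw [Finset.sum_mul, Finset.mul_sum]
        exact Finset.sum_congr rfl fun k _ => by ring
      rw [key]
      by_contra hcon
      have hnn : ∀ k ∈ Finset.univ,
          0 ≤ h ((∑ i, star (x i) • u k i) * star (∑ j, star (x j) • u k j)) :=
        fun k _ => hreal _
      have hz : ∑ k, h ((∑ i, star (x i) • u k i) * star (∑ j, star (x j) • u k j)) = 0 := by
        have h0 := Finset.sum_nonneg hnn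
        exact (eq_of_le_of_not_lt h0 hcon).symm
      rw [Finset.sum_eq_zero_iff_of_nonneg hnn] at hz
      have hy : ∀ k, ∑ i, star (x i) • u k i = 0 := by
        intro k
        by_contra hne
        have := hpos (star (∑ i, star (x i) • u k i)) (star_ne_zero.mpr hne)
        rw [star_star, hz k (Finset.mem_univ _)] at this
        exact lt_irrefl _ this
      apply hx
      funext l
      have h5 : ∑ k, star (u k l) * ∑ i, star (x i) • u k i = 0 := by
        simp only [hy, mul_zero, Finset.sum_const_zero]
      have h6 : ∑ k, star (u k l) * ∑ i, star (x i) • u k i = star (x l) • (1 : A) := by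
        calc ∑ k, star (u k l) * ∑ i, star (x i) • u k i
            = ∑ i, star (x i) • ∑ k, star (u k l) * u k i := by
              simp only [Finset.mul_sum, Finset.smul_sum, mul_smul_comm]
              exact Finset.sum_comm
          _ = star (x l) • (1 : A) := by
              simp only [hu.sum_star_mul]
              simp
      rw [h5] at h6
      have h7 : star (x l) = 0 := by
        apply smul_one_inj (A := A)
        rw [← h6, zero_smul]
      simpa using h7
  · intro i j
    have hc : comul (R := ℂ) (∑ k, u k i * star (u k j))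
        = ∑ p : ι × ι × ι, (u p.1 p.2.1 * star (u p.1 p.2.2)) ⊗ₜ[ℂ]
          (u p.2.1 i * star (u p.2.2 j)) := by
      rw [map_sum, Fintype.sum_prod_type]
      refine Finset.sum_congr rfl fun k _ => ?_
      rw [Bialgebra.comul_mul, hu.comul, hA.comul_star' (hu.comul k j), Finset.sum_mul_sum,
        Fintype.sum_prod_type]
      simp only [Algebra.TensorProduct.tmul_mul_tmul]
    have h8 := hinv' _ _ _ hc
    rw [Fintype.sum_prod_type] at h8
    simp only [Fintype.sum_prod_type] at h8
    rw [Finset.sum_comm] at h8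
    have h9 : ∀ a, ∑ k, ∑ b, h (u k a * star (u k b)) • (u a i * star (u b j))
        = ∑ b, Q a b • (u a i * star (u b j)) := by
      intro a
      rw [Finset.sum_comm]
      refine Finset.sum_congr rfl fun b _ => ?_
      rw [← Finset.sum_smul]
      rfl
    simp only [h9] at h8
    rw [h8, map_sum]
    rfl

theorem InvForm.tens {u : Matrix ι ι A} {Q : Matrix ι ι ℂ} (hQ : InvForm u Q)
    {v : Matrix κ κ A} {P : Matrix κ κ ℂ} (hP : InvForm v P) :
    InvForm (DQG.tens u v) (Q ⊗ₖ P) := by
  intro p q
  rw [Fintype.sum_prod_type]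
  simp only [Fintype.sum_prod_type, tens_apply, Matrix.kroneckerMap_apply, star_mul]
  have h1 : ∀ a a' : ι, ∑ b, ∑ b', (Q a a' * P b b') •
      (u a p.1 * v b p.2 * (star (v b' q.2) * star (u a' q.1)))
      = (Q a a' * P p.2 q.2) • (u a p.1 * star (u a' q.1)) := by
    intro a a'
    have := hP p.2 q.2
    calc ∑ b, ∑ b', (Q a a' * P b b') •
      (u a p.1 * v b p.2 * (star (v b' q.2) * star (u a' q.1)))
        = Q a a' • (u a p.1 * (∑ b, ∑ b', P b b' • (v b p.2 * star (v b' q.2))) *
            star (u a' q.1)) := by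
          simp only [Finset.mul_sum, Finset.sum_mul, Finset.smul_sum, mul_smul_comm,
            smul_mul_assoc, smul_smul, mul_assoc]
      _ = _ := by
          rw [this]
          simp only [mul_smul_comm, smul_mul_assoc, mul_one, smul_smul]
  have h2 : ∀ a : ι, ∑ b, ∑ a', ∑ b', (Q a a' * P b b') •
      (u a p.1 * v b p.2 * (star (v b' q.2) * star (u a' q.1)))
      = ∑ a', (Q a a' * P p.2 q.2) • (u a p.1 * star (u a' q.1)) := by
    intro a
    rw [Finset.sum_comm]
    exact Finset.sum_congr rfl fun a' _ => h1 a a'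
  simp only [h2]
  have := hQ p.1 q.1
  calc ∑ a, ∑ a', (Q a a' * P p.2 q.2) • (u a p.1 * star (u a' q.1))
      = P p.2 q.2 • ∑ a, ∑ a', Q a a' • (u a p.1 * star (u a' q.1)) := by
        simp only [Finset.smul_sum, smul_smul, mul_comm (P p.2 q.2)]
    _ = _ := by rw [this, smul_smul, mul_comm]

theorem invForm_one : InvForm (1 : Matrix Unit Unit A) 1 := by
  intro i j
  simp

end

end Pool.Agent.DQG
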