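import Pool.Agent.DQG.Conj

open scoped TensorProduct Matrix.Norms.L2Operator ComplexOrder MatrixOrder Kronecker
open Coalgebra HopfAlgebra Matrix

namespace Pool.Agent.DQG

universe u

section
variable {A : Type u} [Ring A] [StarRing A] [HopfAlgebra ℂ A]
variable {ι κ : Type} [Fintype ι] [DecidableEq ι] [Fintype κ] [DecidableEq κ]

theorem IsCQG.star_algebraMap (hA : IsCQG A) (c : ℂ) :
    star (algebraMap ℂ A c) = algebraMap ℂ A (star c) := by
  rw [Algebra.algebraMap_eq_smul_one, hA.star_smul, star_one, Algebra.algebraMap_eq_smul_one]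
  rfl

/-- Scalar matrices over `A`. -/
noncomputable abbrev sc (S : Matrix ι ι ℂ) : Matrix ι ι A := S.map (algebraMap ℂ A)

theorem sc_mul (S T : Matrix ι ι ℂ) : (sc (S * T) : Matrix ι ι A) = sc S * sc T := by
  ext i j
  simp [sc, Matrix.mul_apply, Matrix.map_apply]

theorem sc_one : (sc (1 : Matrix ι ι ℂ) : Matrix ι ι A) = 1 := by
  ext i j
  by_cases h : i = j <;> simp [sc, Matrix.map_apply, Matrix.one_apply, h]

theorem sc_conjTranspose (hA : IsCQG A) (S : Matrix ι ι ℂ) :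
    (sc S : Matrix ι ι A)ᴴ = sc Sᴴ := by
  ext i j
  simp only [sc, Matrix.conjTranspose_apply, Matrix.map_apply]
  exact hA.star_algebraMap _

theorem exists_unitary_conj (hA : IsCQG A) {u : Matrix ι ι A} (hu : IsUnitaryCorep u)
    {Q : Matrix ι ι ℂ} (hQ : Q.PosDef) (hi : InvForm u Q) :
    ∃ (S : Matrix ι ι ℂ) (w : Matrix ι ι A), IsUnit S ∧ Q = Sᴴ * S ∧ IsUnitaryCorep w ∧
      ∀ i j, star (u i j) = ∑ a, ∑ b, (S⁻¹ i a * S b j) • w a b := by
  obtain ⟨S, hS⟩ : ∃ S : Matrix ι ι ℂ, Q = Sᴴ * S := by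
    have := hQ.posSemidef
    rw [← Matrix.nonneg_iff_posSemidef] at this
    exact CStarAlgebra.nonneg_iff_eq_star_mul_self.mp this
  have hSu : IsUnit S := by
    have h1 : IsUnit Q := hQ.isUnit
    rw [hS] at h1
    rw [Matrix.isUnit_iff_isUnit_det] at h1 ⊢
    rw [Matrix.det_mul] at h1
    exact isUnit_of_mul_isUnit_right h1
  have hSS : S * S⁻¹ = 1 := Matrix.mul_nonsing_inv _ ((Matrix.isUnit_iff_isUnit_det _).mp hSu)
  have hSS' : S⁻¹ * S = 1 := Matrix.nonsing_inv_mul _ ((Matrix.isUnit_iff_isUnit_det _).mp hSu)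
  set v : Matrix ι ι A := u.map star with hv
  have hinv : vᴴ * sc Q * v = sc Q := by
    ext i j
    have := hi i j
    rw [Matrix.mul_apply]
    simp only [Matrix.mul_apply, hv, Matrix.conjTranspose_apply, Matrix.map_apply, star_star, sc]
    rw [Algebra.algebraMap_eq_smul_one, ← this, Finset.sum_comm]
    refine Finset.sum_congr rfl fun b _ => ?_
    rw [Finset.sum_mul]
    refine Finset.sum_congr rfl fun a _ => ?_
    rw [← Algebra.commutes, mul_assoc, ← Algebra.smul_def]
  have hQQ : Q⁻¹ * Q = 1 := Matrix.nonsing_inv_mul _ ((Matrix.isUnit_iff_isUnit_det _).mp hQ.isUnit)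
  set L : Matrix ι ι A := sc Q⁻¹ * (vᴴ * sc Q) with hL
  have hLv : L * v = 1 := by
    rw [hL, Matrix.mul_assoc, hinv, ← sc_mul, hQQ, sc_one]
  have hcom : ∀ i j, comul (R := ℂ) (v i j) = ∑ k, v i k ⊗ₜ[ℂ] v k j :=
    fun i j => hA.comul_star' (hu.comul i j)
  set E : Matrix ι ι ℂ := Matrix.of fun i j => counit (R := ℂ) (v i j) with hE
  have hvE : v * sc E = v := by
    ext i j
    have h := congrArg (TensorProduct.rid ℂ A) (Coalgebra.lTensor_counit_comul (R := ℂ) (v i j))
    rw [hcom] at h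
    simp only [map_sum, LinearMap.lTensor_tmul, TensorProduct.rid_tmul, one_smul] at h
    rw [Matrix.mul_apply, ← h]
    refine Finset.sum_congr rfl fun k _ => ?_
    simp only [sc, Matrix.map_apply, hE, Matrix.of_apply]
    rw [← Algebra.commutes, ← Algebra.smul_def]
  have hE1 : (sc E : Matrix ι ι A) = 1 := by
    have h1 : L * (v * sc E) = L * v := by rw [hvE]
    rwa [← Matrix.mul_assoc, hLv, Matrix.one_mul] at h1
  have hvM : v * (Matrix.of fun i j => antipode ℂ (v i j)) = 1 := by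
    ext i j
    have h := mul_antipode_lTensor_comul_apply (R := ℂ) (v i j)
    rw [hcom] at h
    simp only [map_sum, LinearMap.lTensor_tmul, LinearMap.mul'_apply] at h
    rw [Matrix.mul_apply]
    simp only [Matrix.of_apply]
    rw [h, ← hE1]
    simp [sc, hE]
  have hvL : v * L = 1 := by
    have h1 : L = Matrix.of fun i j => antipode ℂ (v i j) := by
      calc L = L * (v * Matrix.of fun i j => antipode ℂ (v i j)) := by rw [hvM, Matrix.mul_one]
        _ = _ := by rw [← Matrix.mul_assoc, hLv, Matrix.one_mul]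
    rw [h1]
    exact hvM
  set w : Matrix ι ι A := sc S * v * sc S⁻¹ with hw
  have hvw : v = sc S⁻¹ * w * sc S := by
    rw [hw]
    calc v = sc (S⁻¹ * S) * v * sc (S⁻¹ * S) := by rw [hSS', sc_one, Matrix.one_mul, Matrix.mul_one]
      _ = _ := by rw [sc_mul]; simp only [Matrix.mul_assoc]
  have hwH : wᴴ = sc (S⁻¹)ᴴ * vᴴ * sc Sᴴ := by
    rw [hw, Matrix.conjTranspose_mul, Matrix.conjTranspose_mul, sc_conjTranspose hA,
      sc_conjTranspose hA, Matrix.mul_assoc]
  have hSH : (S⁻¹)ᴴ * Sᴴ = 1 := by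
    rw [← Matrix.conjTranspose_mul, hSS, Matrix.conjTranspose_one]
  have hSH' : Sᴴ * (S⁻¹)ᴴ = 1 := by
    rw [← Matrix.conjTranspose_mul, hSS', Matrix.conjTranspose_one]
  refine ⟨S, w, hSu, hS, ⟨?_, ?_, ?_⟩, ?_⟩
  · intro i j
    have hwij : ∀ i j, w i j = ∑ a, S i a • ∑ b, S⁻¹ b j • v a b := by
      intro i j
      rw [hw, Matrix.mul_apply]
      simp only [Matrix.mul_apply, sc, Matrix.map_apply]
      simp only [Finset.smul_sum, Finset.sum_mul]
      rw [Finset.sum_comm]
      refine Finset.sum_congr rfl fun a _ => Finset.sum_congr rfl fun b _ => ?_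
      rw [← Algebra.commutes (S⁻¹ b j), ← Algebra.smul_def, ← Algebra.smul_def, smul_comm]
    calc comul (R := ℂ) (w i j)
        = ∑ a, ∑ b, (S i a * S⁻¹ b j) • ∑ k, v a k ⊗ₜ[ℂ] v k b := by
          rw [hwij]
          simp only [map_sum, map_smul, hcom, Finset.smul_sum, smul_smul]
      _ = ∑ a, ∑ b, (S i a * S⁻¹ b j) • ∑ c, ∑ d, (S⁻¹ * S) c d • (v a c ⊗ₜ[ℂ] v d b) := by
          refine Finset.sum_congr rfl fun a _ => Finset.sum_congr rfl fun b _ => ?_
          congr 1
          refine Finset.sum_congr rfl fun c _ => ?_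
          rw [hSS']
          simp [Matrix.one_apply]
      _ = ∑ k, w i k ⊗ₜ[ℂ] w k j := by
          have e1 : ∀ k, w i k ⊗ₜ[ℂ] w k j = ∑ a, ∑ b, ∑ c, ∑ d,
              (S i a * S⁻¹ b j) • ((S⁻¹ c k * S k d) • (v a c ⊗ₜ[ℂ] v d b)) := by
            intro k
            rw [hwij i k, hwij k j, TensorProduct.sum_tmul]
            refine Finset.sum_congr rfl fun a _ => ?_
            rw [← TensorProduct.smul_tmul', TensorProduct.sum_tmul, Finset.smul_sum]
            have e2 : ∀ c, S i a • ((S⁻¹ c k • v a c) ⊗ₜ[ℂ] ∑ d, S k d • ∑ b, S⁻¹ b j • v d b)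
                = ∑ b, ∑ d, (S i a * S⁻¹ b j) • ((S⁻¹ c k * S k d) • (v a c ⊗ₜ[ℂ] v d b)) := by
              intro c
              simp only [TensorProduct.tmul_sum, TensorProduct.tmul_smul, Finset.smul_sum,
                ← TensorProduct.smul_tmul', smul_smul]
              rw [Finset.sum_comm]
              refine Finset.sum_congr rfl fun b _ => Finset.sum_congr rfl fun d _ => ?_
              congr 1
              ring
            simp only [e2]
            rw [Finset.sum_comm]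
          simp only [e1]
          have e3 : ∀ c d, (S⁻¹ * S) c d = ∑ k, S⁻¹ c k * S k d := fun c d => Matrix.mul_apply
          simp only [e3, Finset.sum_smul, Finset.smul_sum]
          rw [Finset.sum_comm]
          conv_rhs => rw [Finset.sum_comm]
          rw [Finset.sum_comm]
          refine Finset.sum_congr rfl fun a _ => ?_
          conv_rhs => rw [Finset.sum_comm]
          refine Finset.sum_congr rfl fun b _ => ?_
          conv_rhs => rw [Finset.sum_comm]
          refine Finset.sum_congr rfl fun c _ => ?_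
          conv_rhs => rw [Finset.sum_comm]
  · have h1 : (sc Sᴴ : Matrix ι ι A) * sc S = sc Q := by rw [← sc_mul, ← hS]
    calc wᴴ * w = sc (S⁻¹)ᴴ * (vᴴ * (sc Sᴴ * sc S) * v) * sc S⁻¹ := by
          rw [hwH, hw]; simp only [Matrix.mul_assoc]
      _ = sc ((S⁻¹)ᴴ * (Sᴴ * S) * S⁻¹) := by
          rw [h1, hinv, hS]; simp only [sc_mul]
      _ = 1 := by
          rw [← Matrix.mul_assoc, hSH, Matrix.one_mul, hSS, sc_one]
  · have h2 : v * (sc Q⁻¹ * vᴴ) = sc Q⁻¹ := by
      have h3 : v * (sc Q⁻¹ * (vᴴ * sc Q)) * sc Q⁻¹ = sc Q⁻¹ := by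
        rw [← hL, hvL, Matrix.one_mul]
      have hQQ' : Q * Q⁻¹ = 1 :=
        Matrix.mul_nonsing_inv _ ((Matrix.isUnit_iff_isUnit_det _).mp hQ.isUnit)
      calc v * (sc Q⁻¹ * vᴴ) = v * (sc Q⁻¹ * (vᴴ * sc (Q * Q⁻¹))) := by
            rw [hQQ', sc_one, Matrix.mul_one]
        _ = v * (sc Q⁻¹ * (vᴴ * sc Q)) * sc Q⁻¹ := by
            rw [sc_mul]; simp only [Matrix.mul_assoc]
        _ = _ := h3
    have h4 : S⁻¹ * (S⁻¹)ᴴ = Q⁻¹ := by
      symm
      apply Matrix.inv_eq_left_inv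
      rw [hS]
      calc S⁻¹ * (S⁻¹)ᴴ * (Sᴴ * S) = S⁻¹ * ((S⁻¹)ᴴ * Sᴴ) * S := by simp only [Matrix.mul_assoc]
        _ = 1 := by rw [hSH, Matrix.mul_one, hSS']
    calc w * wᴴ = sc S * (v * (sc (S⁻¹ * (S⁻¹)ᴴ) * vᴴ)) * sc Sᴴ := by
          rw [hwH, hw, sc_mul]; simp only [Matrix.mul_assoc]
      _ = sc (S * (S⁻¹ * (S⁻¹)ᴴ) * Sᴴ) := by
          rw [h4, h2, sc_mul, sc_mul]
      _ = 1 := by
          rw [← Matrix.mul_assoc, hSS, Matrix.one_mul, hSH, sc_one]
  · intro i j
    have : star (u i j) = v i j := rfl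
    rw [this, hvw, Matrix.mul_apply]
    simp only [Matrix.mul_apply, sc, Matrix.map_apply, Finset.sum_mul]
    rw [Finset.sum_comm]
    refine Finset.sum_congr rfl fun a _ => Finset.sum_congr rfl fun b _ => ?_
    rw [← Algebra.commutes (S b j), ← Algebra.smul_def, ← Algebra.smul_def, smul_smul, mul_comm]

end

end Pool.Agent.DQG
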