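import Mathlib

/-!
# Discrete quantum groups, periodic and almost periodic elements (definitions)

A compact quantum group `H` is given by its Hopf *-algebra `A` of matrix coefficients, and the
discrete quantum group `G` is its dual.  Elements of `L^infty(G)` are the linear functionals on `A`
that are bounded on all finite-dimensional unitary corepresentations.
-/

open scoped TensorProduct Matrix.Norms.L2Operator ComplexOrder
open Coalgebra HopfAlgebra Matrix

namespace Pool.Agent.DQG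

universe u

section
variable {A : Type u} [Ring A] [StarRing A] [HopfAlgebra ℂ A]

/-- `u` is a finite-dimensional unitary corepresentation of the Hopf *-algebra `A`. -/
def IsUnitaryCorep {ι : Type} [Fintype ι] [DecidableEq ι] (u : Matrix ι ι A) : Prop :=
  (∀ i j, comul (R := ℂ) (u i j) = ∑ k, u i k ⊗ₜ[ℂ] u k j) ∧ uᴴ * u = 1 ∧ u * uᴴ = 1

variable (A) in
/-- `A` is the Hopf *-algebra of a compact quantum group: the involution is conjugate linear and
compatible with the comultiplication, there is a faithful positive Haar state, and `A` is spanned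
by the matrix entries of its finite-dimensional unitary corepresentations. -/
structure IsCQG : Prop where
  star_smul : ∀ (c : ℂ) (a : A), star (c • a) = (starRingEnd ℂ c) • star a
  comul_star : ∀ (a : A) (n : ℕ) (x y : Fin n → A),
    comul (R := ℂ) a = ∑ i, x i ⊗ₜ[ℂ] y i →
      comul (R := ℂ) (star a) = ∑ i, star (x i) ⊗ₜ[ℂ] star (y i)
  haar : ∃ h : A →ₗ[ℂ] ℂ, h 1 = 1 ∧
    (∀ (a : A) (n : ℕ) (x y : Fin n → A), comul (R := ℂ) a = ∑ i, x i ⊗ₜ[ℂ] y i →
      ∑ i, h (x i) • y i = h a • (1 : A) ∧ ∑ i, h (y i) • x i = h a • (1 : A)) ∧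
    ∀ a : A, a ≠ 0 → 0 < h (star a * a)
  span : Submodule.span ℂ {c : A | ∃ (ι : Type) (_ : Fintype ι) (_ : DecidableEq ι)
    (u : Matrix ι ι A), IsUnitaryCorep u ∧ ∃ i j, c = u i j} = ⊤

/-- The product of `L^infty(G)`: convolution of functionals. -/
noncomputable def conv (x y : A →ₗ[ℂ] ℂ) : A →ₗ[ℂ] ℂ :=
  LinearMap.mul' ℂ ℂ ∘ₗ TensorProduct.map x y ∘ₗ comul

/-- `x ∈ L^infty(G)`: the functional `x` is bounded on all unitary corepresentations. -/
def IsBdd (x : A →ₗ[ℂ] ℂ) : Prop :=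
  ∃ C : ℝ, ∀ (ι : Type) [Fintype ι] [DecidableEq ι] (u : Matrix ι ι A),
    IsUnitaryCorep u → ‖u.map x‖ ≤ C

/-- `y = x^*` in `L^infty(G)`: `y(a) = conj (x (S(a)^*))`. -/
def IsStar (x y : A →ₗ[ℂ] ℂ) : Prop :=
  ∀ a : A, y a = starRingEnd ℂ (x (star (antipode ℂ a)))

/-- `x ∈ L^infty(G)` is periodic: `Δ(x)` is a finite-rank tensor in
`L^infty(G) ⊗ L^infty(G)`; here `Δ(x)(a ⊗ b) = x(ab)`. -/
def IsPeriodic (x : A →ₗ[ℂ] ℂ) : Prop :=
  IsBdd x ∧ ∃ (n : ℕ) (y z : Fin n → A →ₗ[ℂ] ℂ), (∀ i, IsBdd (y i)) ∧ (∀ i, IsBdd (z i)) ∧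
    ∀ a b : A, x (a * b) = ∑ i, y i a * z i b

/-- `V` is the inverse of the matrix `U` over the algebra `L^infty(G)`. -/
def IsInverse {d : ℕ} (U V : Matrix (Fin d) (Fin d) (A →ₗ[ℂ] ℂ)) : Prop :=
  (∀ i j, ∑ k, conv (U i k) (V k j) = if i = j then counit else 0) ∧
  (∀ i j, ∑ k, conv (V i k) (U k j) = if i = j then counit else 0)

/-- `U` is an admissible finite-dimensional unitary corepresentation of `G`: a unitary matrix over
`L^infty(G)` with `Δ(U_ij) = ∑ U_ik ⊗ U_kj` whose transpose is invertible. -/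
def IsAdmissible {d : ℕ} (U : Matrix (Fin d) (Fin d) (A →ₗ[ℂ] ℂ)) : Prop :=
  (∀ i j, IsBdd (U i j)) ∧
  (∀ i j, ∀ a b : A, U i j (a * b) = ∑ k, U i k a * U k j b) ∧
  (∃ V : Matrix (Fin d) (Fin d) (A →ₗ[ℂ] ℂ), (∀ i j, IsStar (U j i) (V i j)) ∧ IsInverse U V) ∧
  (∃ W : Matrix (Fin d) (Fin d) (A →ₗ[ℂ] ℂ), (∀ i j, IsBdd (W i j)) ∧ IsInverse Uᵀ W)

end

end Pool.Agent.DQG
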