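import Pool.Agent.DQG.Good

open scoped TensorProduct Matrix.Norms.L2Operator ComplexOrder MatrixOrder Kronecker
open Coalgebra HopfAlgebra Matrix

namespace Pool.Agent.DQG

universe u

theorem hs_conjTranspose {m n : Type*} [Fintype m] [Fintype n] (M : Matrix m n ℂ) :
    hs Mᴴ = hs M := by
  unfold hs
  rw [Finset.sum_comm]
  simp [Matrix.conjTranspose_apply]

theorem hs_map_star {m n : Type*} [Fintype m] [Fintype n] (M : Matrix m n ℂ) :
    hs (M.map star) = hs M := by
  unfold hs
  simp

section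
variable {A : Type u} [Ring A] [StarRing A] [HopfAlgebra ℂ A]
variable {ι : Type} [Fintype ι] [DecidableEq ι]

/-- The functional `x` is bounded by `C` on all unitary corepresentations. -/
def BddBy (x : A →ₗ[ℂ] ℂ) (C : ℝ) : Prop :=
  ∀ (ι : Type) [Fintype ι] [DecidableEq ι] (u : Matrix ι ι A), IsUnitaryCorep u → ‖u.map x‖ ≤ C

theorem BddBy.nonneg {x : A →ₗ[ℂ] ℂ} {C : ℝ} (h : BddBy x C) : 0 ≤ C :=
  (norm_nonneg _).trans (h Unit 1 isUnitaryCorep_one)

theorem alpha_le {x : A →ₗ[ℂ] ℂ} {C : ℝ} (h : BddBy x C) {u : Matrix ι ι A}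
    (hu : IsUnitaryCorep u) {H : Matrix ι ι ℂ} (hH : hs H = 1) :
    hs (u.map x * H.map star) ≤ C ^ 2 := by
  refine (hs_mul_le _ _).trans ?_
  rw [hs_map_star, hH, mul_one]
  exact pow_le_pow_left₀ (norm_nonneg _) (h ι u hu) 2

theorem beta_le {x : A →ₗ[ℂ] ℂ} {C : ℝ} (h : BddBy x C) {u w : Matrix ι ι A}
    (hw : IsUnitaryCorep w) {H : Matrix ι ι ℂ} (hH : hs H = 1) (hHu : IsUnit H)
    (hs' : ∀ i j, star (u i j) = ∑ a, ∑ b, (H i a * H⁻¹ b j) • w a b) :
    hs ((Matrix.of fun i j => x (star (u i j))) * H) ≤ C ^ 2 := by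
  have h1 : (Matrix.of fun i j => x (star (u i j))) * H = H * w.map x := by
    have h2 : (Matrix.of fun i j => x (star (u i j))) = H * w.map x * H⁻¹ := by
      ext i j
      rw [Matrix.of_apply, hs', Matrix.mul_apply]
      simp only [map_sum, map_smul, Matrix.mul_apply, Matrix.map_apply, Finset.sum_mul,
        smul_eq_mul]
      rw [Finset.sum_comm]
      exact Finset.sum_congr rfl fun a _ => Finset.sum_congr rfl fun b _ => by ring
    rw [h2, Matrix.mul_assoc, Matrix.nonsing_inv_mul _ ((Matrix.isUnit_iff_isUnit_det _).mp hHu),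
      Matrix.mul_one]
  rw [h1, ← hs_conjTranspose, Matrix.conjTranspose_mul]
  refine (hs_mul_le _ _).trans ?_
  rw [hs_conjTranspose, hH, mul_one, Matrix.l2_opNorm_conjTranspose]
  exact pow_le_pow_left₀ (norm_nonneg _) (h ι w hw) 2

theorem cs_ineq {m : ℕ} {x : Fin m → Fin m → A →ₗ[ℂ] ℂ}
    (htr : ∀ a b, ∑ p, ∑ q, x p q a * x q p b = ∑ p, x p p (a * b)) (hone : ∀ p, x p p 1 = 1)
    {u : Matrix ι ι A} (hu : IsUnitaryCorep u) {G H : Matrix ι ι ℂ} (hG : G = H * Hᴴ)
    (htrG : G.trace = 1) :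
    (m : ℝ) ^ 2 ≤ (∑ p, ∑ q, hs ((Matrix.of fun i j => x p q (star (u i j))) * H)) *
      (∑ p, ∑ q, hs (u.map (x q p) * H.map star)) := by
  set a : (Fin m × Fin m) × (ι × ι) → ℂ := fun s =>
    ((Matrix.of fun i j => x s.1.1 s.1.2 (star (u i j))) * H) s.2.1 s.2.2 with ha
  set b : (Fin m × Fin m) × (ι × ι) → ℂ := fun s =>
    (u.map (x s.1.2 s.1.1) * H.map star) s.2.1 s.2.2 with hb
  have hsum : ∑ s, a s * b s = (m : ℂ) := by
    have e1 : ∀ k l : ι, ∑ p, ∑ q, ((Matrix.of fun i j => x p q (star (u i j))) * H) k l *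
        (u.map (x q p) * H.map star) k l
        = ∑ i, ∑ j, (H i l * star (H j l)) * ∑ p, x p p (star (u k i) * u k j) := by
      intro k l
      have e2 : ∀ p q, ((Matrix.of fun i j => x p q (star (u i j))) * H) k l *
        (u.map (x q p) * H.map star) k l
        = ∑ i, ∑ j, (H i l * star (H j l)) * (x p q (star (u k i)) * x q p (u k j)) := by
        intro p q
        simp only [Matrix.mul_apply, Matrix.of_apply, Matrix.map_apply, Finset.sum_mul_sum]
        exact Finset.sum_congr rfl fun i _ => Finset.sum_congr rfl fun j _ => by ring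
      simp only [e2, ← htr, Finset.mul_sum]
      have e3 : ∀ p, ∑ q, ∑ i, ∑ j, H i l * star (H j l) * (x p q (star (u k i)) * x q p (u k j))
        = ∑ i, ∑ j, ∑ q, H i l * star (H j l) * (x p q (star (u k i)) * x q p (u k j)) := by
        intro p
        rw [Finset.sum_comm]
        exact Finset.sum_congr rfl fun i _ => Finset.sum_comm
      simp only [e3]
      rw [Finset.sum_comm]
      exact Finset.sum_congr rfl fun i _ => Finset.sum_comm
    calc ∑ s, a s * b s
        = ∑ p, ∑ q, ∑ k, ∑ l, ((Matrix.of fun i j => x p q (star (u i j))) * H) k l *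
            (u.map (x q p) * H.map star) k l := by
          rw [Fintype.sum_prod_type, Fintype.sum_prod_type]
          simp only [Fintype.sum_prod_type, ha, hb]
      _ = ∑ k, ∑ l, ∑ p, ∑ q, ((Matrix.of fun i j => x p q (star (u i j))) * H) k l *
            (u.map (x q p) * H.map star) k l := by
          have e4 : ∀ p, ∑ q, ∑ k, ∑ l, ((Matrix.of fun i j => x p q (star (u i j))) * H) k l *
            (u.map (x q p) * H.map star) k l
            = ∑ k, ∑ l, ∑ q, ((Matrix.of fun i j => x p q (star (u i j))) * H) k l *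
            (u.map (x q p) * H.map star) k l := by
            intro p
            rw [Finset.sum_comm]
            exact Finset.sum_congr rfl fun i _ => Finset.sum_comm
          simp only [e4]
          rw [Finset.sum_comm]
          exact Finset.sum_congr rfl fun i _ => Finset.sum_comm
      _ = ∑ k, ∑ l, ∑ i, ∑ j, (H i l * star (H j l)) * ∑ p, x p p (star (u k i) * u k j) := by
          simp only [e1]
      _ = ∑ i, ∑ j, G i j * ∑ p, x p p (∑ k, star (u k i) * u k j) := by
          have e5 : ∀ i j, G i j * ∑ p, x p p (∑ k, star (u k i) * u k j)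
            = ∑ k, ∑ l, (H i l * star (H j l)) * ∑ p, x p p (star (u k i) * u k j) := by
            intro i j
            rw [hG, Matrix.mul_apply]
            simp only [map_sum, Matrix.conjTranspose_apply]
            have : ∑ p, ∑ k, x p p (star (u k i) * u k j)
              = ∑ k, ∑ p, x p p (star (u k i) * u k j) := Finset.sum_comm
            rw [this, Finset.sum_mul_sum, Finset.sum_comm]
          simp only [e5]
          have e6 : ∀ k, ∑ l, ∑ i, ∑ j, (H i l * star (H j l)) *
              ∑ p, x p p (star (u k i) * u k j)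
              = ∑ i, ∑ j, ∑ l, (H i l * star (H j l)) * ∑ p, x p p (star (u k i) * u k j) := by
            intro k
            rw [Finset.sum_comm]
            exact Finset.sum_congr rfl fun i _ => Finset.sum_comm
          simp only [e6]
          rw [Finset.sum_comm]
          exact Finset.sum_congr rfl fun i _ => Finset.sum_comm
      _ = ∑ i, G i i * (m : ℂ) := by
          refine Finset.sum_congr rfl fun i _ => ?_
          have e7 : ∀ j, ∑ p, x p p (∑ k, star (u k i) * u k j) = if i = j then (m : ℂ) else 0 := by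
            intro j
            simp only [hu.sum_star_mul]
            by_cases h : i = j
            · simp [h, hone]
            · simp [h]
          simp only [e7]
          simp
      _ = (m : ℂ) := by
          rw [← Finset.sum_mul]
          have : ∑ i, G i i = 1 := htrG
          rw [this, one_mul]
  have hsq : ∑ s, ‖a s‖ ^ 2 = ∑ p, ∑ q, hs ((Matrix.of fun i j => x p q (star (u i j))) * H) := by
    rw [Fintype.sum_prod_type, Fintype.sum_prod_type]
    simp only [Fintype.sum_prod_type, ha, hs]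
  have hsq' : ∑ s, ‖b s‖ ^ 2 = ∑ p, ∑ q, hs (u.map (x q p) * H.map star) := by
    rw [Fintype.sum_prod_type, Fintype.sum_prod_type]
    simp only [Fintype.sum_prod_type, hb, hs]
  rw [← hsq, ← hsq']
  have h1 : (m : ℝ) ≤ ∑ s, ‖a s‖ * ‖b s‖ := by
    have h2 : ‖∑ s, a s * b s‖ ≤ ∑ s, ‖a s * b s‖ := norm_sum_le _ _
    rw [hsum, Complex.norm_natCast] at h2
    simpa using h2
  calc (m : ℝ) ^ 2 ≤ (∑ s, ‖a s‖ * ‖b s‖) ^ 2 := pow_le_pow_left₀ (by positivity) h1 2
    _ ≤ _ := Finset.sum_mul_sq_le_sq_mul_sq _ _ _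

/-- Lower bound for `∑ α(x_pq)`. -/
theorem lower_bound (hA : IsCQG A) {m : ℕ} {x : Fin m → Fin m → A →ₗ[ℂ] ℂ}
    (htr : ∀ a b, ∑ p, ∑ q, x p q a * x q p b = ∑ p, x p p (a * b)) (hone : ∀ p, x p p 1 = 1)
    {C : ℝ} (hC : ∀ p q, BddBy (x p q) C)
    {u : Matrix ι ι A} {G H : Matrix ι ι ℂ} (hu : IsUnitaryCorep u) (hG : G = H * Hᴴ)
    (htrG : G.trace = 1) (hH : hs H = 1) (hHu : IsUnit H) {w : Matrix ι ι A}
    (hw : IsUnitaryCorep w)
    (hs' : ∀ i j, star (u i j) = ∑ a, ∑ b, (H i a * H⁻¹ b j) • w a b) :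
    (m : ℝ) ^ 2 ≤ ((m : ℝ) ^ 2 * C ^ 2) * ∑ p, ∑ q, hs (u.map (x p q) * H.map star) := by
  have h1 := cs_ineq htr hone hu hG htrG
  have h2 : ∑ p, ∑ q, hs ((Matrix.of fun i j => x p q (star (u i j))) * H)
      ≤ (m : ℝ) ^ 2 * C ^ 2 := by
    calc ∑ p : Fin m, ∑ q : Fin m, hs ((Matrix.of fun i j => x p q (star (u i j))) * H)
        ≤ ∑ p : Fin m, ∑ q : Fin m, C ^ 2 :=
          Finset.sum_le_sum fun p _ => Finset.sum_le_sum fun q _ =>
            beta_le (hC p q) hw hH hHu hs'
      _ = (m : ℝ) ^ 2 * C ^ 2 := by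
          simp; ring
  have h3 : ∑ p, ∑ q, hs (u.map (x q p) * H.map star)
      = ∑ p, ∑ q, hs (u.map (x p q) * H.map star) := Finset.sum_comm
  rw [h3] at h1
  refine h1.trans (mul_le_mul_of_nonneg_right h2 ?_)
  exact Finset.sum_nonneg fun _ _ => Finset.sum_nonneg fun _ _ => hs_nonneg _

end

end Pool.Agent.DQG
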