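import Pool.Agent.DQG.Est

open scoped TensorProduct Matrix.Norms.L2Operator ComplexOrder MatrixOrder Kronecker
open Coalgebra HopfAlgebra Matrix

namespace Pool.Agent.DQG

universe u

section
variable {A : Type u} [Ring A] [StarRing A] [HopfAlgebra ℂ A]
variable {ι κ : Type} [Fintype ι] [DecidableEq ι] [Fintype κ] [DecidableEq κ]
variable {D E : Type} [Fintype D] [DecidableEq D] [Fintype E] [DecidableEq E]

/-- The matrix entries of a linear map into matrices. -/
def ent (R : A →ₗ[ℂ] Matrix D D ℂ) (p q : D) : A →ₗ[ℂ] ℂ where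
  toFun a := R a p q
  map_add' a b := by simp
  map_smul' c a := by simp

theorem ent_apply (R : A →ₗ[ℂ] Matrix D D ℂ) (p q : D) (a : A) : ent R p q a = R a p q := rfl

theorem trace_FF (R : A →ₗ[ℂ] Matrix D D ℂ) (u : Matrix ι ι A) {G H : Matrix ι ι ℂ}
    (hG : G = H * Hᴴ) (J : Matrix D E ℂ) :
    (Jᴴ * FF R u G 1 * J).trace = ((∑ k, ∑ l, hs (YY R u H k l * J) : ℝ) : ℂ) := by
  rw [FF_eq R u hG]
  simp only [Matrix.mul_sum, Matrix.sum_mul, Matrix.trace_sum, Complex.ofReal_sum]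
  refine Finset.sum_congr rfl fun k _ => Finset.sum_congr rfl fun l _ => ?_
  rw [← trace_conjTranspose_mul_self, Matrix.conjTranspose_mul, Matrix.mul_one]
  simp only [Matrix.mul_assoc]

theorem sum_hs_YY (R : A →ₗ[ℂ] Matrix D D ℂ) (u : Matrix ι ι A) (H : Matrix ι ι ℂ) :
    ∑ k, ∑ l, hs (YY R u H k l) = ∑ p, ∑ q, hs (u.map (ent R p q) * H.map star) := by
  have e1 : ∀ k l p q, YY R u H k l p q = (u.map (ent R p q) * H.map star) k l := by
    intro k l p q
    rw [YY, Matrix.sum_apply, Matrix.mul_apply]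
    refine Finset.sum_congr rfl fun i _ => ?_
    simp [ent_apply, mul_comm]
  simp only [hs, e1]
  have e2 : ∀ k, ∑ l, ∑ p, ∑ q, ‖(u.map (ent R p q) * H.map star) k l‖ ^ 2
      = ∑ p, ∑ q, ∑ l, ‖(u.map (ent R p q) * H.map star) k l‖ ^ 2 := by
    intro k
    rw [Finset.sum_comm]
    exact Finset.sum_congr rfl fun i _ => Finset.sum_comm
  simp only [e2]
  rw [Finset.sum_comm]
  exact Finset.sum_congr rfl fun i _ => Finset.sum_comm

/-- `T` is one of the averages `∑ G_ij R(u_ki)ᴴ R(u_kj)`. -/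
def InN (R : A →ₗ[ℂ] Matrix D D ℂ) (T : Matrix D D ℂ) : Prop :=
  ∃ (ι : Type) (_ : Fintype ι) (_ : DecidableEq ι) (u : Matrix ι ι A) (G : Matrix ι ι ℂ),
    Good u G ∧ T = FF R u G 1

theorem inN_one {R : A →ₗ[ℂ] Matrix D D ℂ} (h1 : R 1 = 1) : InN R 1 := by
  refine ⟨Unit, inferInstance, inferInstance, 1, 1, good_one, ?_⟩
  rw [FF_apply]
  simp [h1]

theorem InN.step {R : A →ₗ[ℂ] Matrix D D ℂ}
    (hR : (∀ a b, R (a * b) = R a * R b) ∨ (∀ a b, R (a * b) = R b * R a))
    {v : Matrix κ κ A} {G : Matrix κ κ ℂ} (hv : Good v G) {T : Matrix D D ℂ} (hT : InN R T) :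
    InN R (FF R v G T) := by
  obtain ⟨ι, i1, i2, u, G', hu, rfl⟩ := hT
  rcases hR with hR | hR
  · exact ⟨ι × κ, inferInstance, inferInstance, tens u v, G' ⊗ₖ G, hu.tens hv,
      (FF_hom hR u G' v G 1).symm⟩
  · exact ⟨κ × ι, inferInstance, inferInstance, tens v u, G ⊗ₖ G', hv.tens hu,
      (FF_anti hR u G' v G 1).symm⟩

theorem FF_posSemidef (R : A →ₗ[ℂ] Matrix D D ℂ) (u : Matrix ι ι A) {G H : Matrix ι ι ℂ}
    (hG : G = H * Hᴴ) {T : Matrix D D ℂ} (hT : T.PosSemidef) : (FF R u G T).PosSemidef := by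
  rw [FF_eq R u hG]
  exact Matrix.posSemidef_sum _ fun k _ => Matrix.posSemidef_sum _ fun l _ =>
    hT.conjTranspose_mul_mul_same _

theorem InN.posSemidef (hA : IsCQG A) {R : A →ₗ[ℂ] Matrix D D ℂ} {T : Matrix D D ℂ}
    (hT : InN R T) : T.PosSemidef := by
  obtain ⟨ι, i1, i2, u, G, hu, rfl⟩ := hT
  obtain ⟨H, w, -, hG, -, -, -⟩ := hu.decomp hA
  exact FF_posSemidef R u hG Matrix.PosSemidef.one

theorem exists_common_bound {σ : Type} [Fintype σ] {x : σ → σ → A →ₗ[ℂ] ℂ}
    (h : ∀ p q, IsBdd (x p q)) : ∃ C, ∀ p q, BddBy (x p q) C := by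
  choose C hC using h
  refine ⟨∑ p, ∑ q, C p q, fun p q ι _ _ u hu => (hC p q ι u hu).trans ?_⟩
  have hnn : ∀ p q, 0 ≤ C p q := fun p q => BddBy.nonneg (hC p q)
  exact (Finset.single_le_sum (f := fun q => C p q) (fun q _ => hnn p q)
    (Finset.mem_univ q)).trans (Finset.single_le_sum (f := fun p => ∑ q, C p q)
    (fun p _ => Finset.sum_nonneg fun q _ => hnn p q) (Finset.mem_univ p))

theorem InN.trace_le (hA : IsCQG A) {R : A →ₗ[ℂ] Matrix D D ℂ} {C : ℝ}
    (hC : ∀ p q, BddBy (ent R p q) C) {T : Matrix D D ℂ} (hT : InN R T) :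
    T.trace.re ≤ (Fintype.card D : ℝ) ^ 2 * C ^ 2 := by
  obtain ⟨ι, i1, i2, u, G, hu, rfl⟩ := hT
  obtain ⟨H, w, -, hG, hH, -, -⟩ := hu.decomp hA
  have h1 := trace_FF R u hG (1 : Matrix D D ℂ)
  simp only [Matrix.conjTranspose_one, Matrix.one_mul, Matrix.mul_one] at h1
  rw [h1, Complex.ofReal_re, sum_hs_YY]
  calc ∑ p : D, ∑ q : D, hs (u.map (ent R p q) * H.map star)
      ≤ ∑ p : D, ∑ q : D, C ^ 2 := Finset.sum_le_sum fun p _ => Finset.sum_le_sum fun q _ =>
        alpha_le (hC p q) hu.corep hH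
    _ = (Fintype.card D : ℝ) ^ 2 * C ^ 2 := by simp; ring

theorem InN.lower (hA : IsCQG A) {R : A →ₗ[ℂ] Matrix D D ℂ} (h1 : R 1 = 1)
    (hR : (∀ a b, R (a * b) = R a * R b) ∨ (∀ a b, R (a * b) = R b * R a))
    (hb : ∀ p q, IsBdd (ent R p q)) {m : ℕ} (hm : 0 < m) (J : Matrix D (Fin m) ℂ)
    (hJ : Jᴴ * J = 1) (hRJ : ∀ a, R a * J = J * (Jᴴ * R a * J)) :
    ∃ c : ℝ, 0 < c ∧ ∀ T, InN R T → c ≤ (Jᴴ * T * J).trace.re := by
  set R0 : A →ₗ[ℂ] Matrix (Fin m) (Fin m) ℂ :=
    { toFun := fun a => Jᴴ * R a * J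
      map_add' := fun a b => by simp [Matrix.mul_add, Matrix.add_mul]
      map_smul' := fun c a => by simp } with hR0
  have hR0a : ∀ a, R0 a = Jᴴ * R a * J := fun a => rfl
  have hR01 : R0 1 = 1 := by rw [hR0a, h1, Matrix.mul_one, hJ]
  have hmul : (∀ a b, R0 (a * b) = R0 a * R0 b) ∨ (∀ a b, R0 (a * b) = R0 b * R0 a) := by
    rcases hR with hR | hR
    · left
      intro a b
      rw [hR0a, hR, hR0a, hR0a]
      calc Jᴴ * (R a * R b) * J = Jᴴ * (R a * (R b * J)) := by simp only [Matrix.mul_assoc]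
        _ = _ := by rw [hRJ b]; simp only [Matrix.mul_assoc]
    · right
      intro a b
      rw [hR0a, hR, hR0a, hR0a]
      calc Jᴴ * (R b * R a) * J = Jᴴ * (R b * (R a * J)) := by simp only [Matrix.mul_assoc]
        _ = _ := by rw [hRJ a]; simp only [Matrix.mul_assoc]
  have hb0 : ∀ p q, IsBdd (ent R0 p q) := by
    intro p q
    have h2 : ent R0 p q = ∑ i, ∑ j, (star (J i p) * J j q) • ent R i j := by
      ext a
      simp only [ent_apply, hR0a, Matrix.mul_apply, Matrix.conjTranspose_apply, Finset.sum_mul,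
        LinearMap.sum_apply, LinearMap.smul_apply, smul_eq_mul]
      rw [Finset.sum_comm]
      exact Finset.sum_congr rfl fun i _ => Finset.sum_congr rfl fun j _ => by ring
    rw [h2]
    exact isBdd_sum _ _ fun i _ => isBdd_sum _ _ fun j _ => (hb i j).smul _
  obtain ⟨C, hC⟩ := exists_common_bound hb0
  have htr : ∀ a b, ∑ p, ∑ q, ent R0 p q a * ent R0 q p b = ∑ p, ent R0 p p (a * b) := by
    intro a b
    simp only [ent_apply]
    rcases hmul with hmul | hmul
    · simp only [hmul, Matrix.mul_apply]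
    · simp only [hmul, Matrix.mul_apply]
      rw [Finset.sum_comm]
      exact Finset.sum_congr rfl fun i _ => Finset.sum_congr rfl fun j _ => mul_comm _ _
  have hone : ∀ p, ent R0 p p 1 = 1 := by
    intro p
    rw [ent_apply, hR01, Matrix.one_apply_eq]
  have hmR : (0 : ℝ) < m := by exact_mod_cast hm
  refine ⟨(m : ℝ) ^ 2 / ((m : ℝ) ^ 2 * C ^ 2 + 1), by positivity, ?_⟩
  rintro T ⟨ι, i1, i2, u, G, hu, rfl⟩
  obtain ⟨H, w, hHu, hG, hH, hw, hs'⟩ := hu.decomp hA
  have h3 := lower_bound hA htr hone hC hu.corep hG hu.tr hH hHu hw hs'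
  have h4 : (Jᴴ * FF R u G 1 * J).trace.re
      = ∑ p, ∑ q, hs (u.map (ent R0 p q) * H.map star) := by
    rw [trace_FF R u hG J, Complex.ofReal_re, ← sum_hs_YY]
    refine Finset.sum_congr rfl fun k _ => Finset.sum_congr rfl fun l _ => ?_
    have h5 : YY R u H k l * J = J * YY R0 u H k l := by
      simp only [YY, Matrix.sum_mul, Matrix.mul_sum, Matrix.smul_mul, Matrix.mul_smul]
      refine Finset.sum_congr rfl fun i _ => ?_
      rw [hRJ, ← hR0a]
    have h6 : ((hs (J * YY R0 u H k l) : ℝ) : ℂ) = ((hs (YY R0 u H k l) : ℝ) : ℂ) := by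
      rw [← trace_conjTranspose_mul_self, ← trace_conjTranspose_mul_self,
        Matrix.conjTranspose_mul]
      congr 1
      calc (YY R0 u H k l)ᴴ * Jᴴ * (J * YY R0 u H k l)
          = (YY R0 u H k l)ᴴ * (Jᴴ * J) * YY R0 u H k l := by simp only [Matrix.mul_assoc]
        _ = _ := by rw [hJ, Matrix.mul_one]
    rw [h5]
    exact_mod_cast h6
  rw [h4, div_le_iff₀ (by positivity)]
  have h7 : 0 ≤ ∑ p, ∑ q, hs (u.map (ent R0 p q) * H.map star) :=
    Finset.sum_nonneg fun _ _ => Finset.sum_nonneg fun _ _ => hs_nonneg _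
  nlinarith

theorem YY_mulVec_inv (R : A →ₗ[ℂ] Matrix D D ℂ) (v : Matrix κ κ A) {H : Matrix κ κ ℂ}
    (hH : IsUnit H) (k j : κ) :
    ∑ l, star (H⁻¹ l j) • YY R v H k l = R (v k j) := by
  have h1 : ∀ i, ∑ l, star (H⁻¹ l j) * star (H i l) = if i = j then 1 else 0 := by
    intro i
    have h2 : H * H⁻¹ = 1 := Matrix.mul_nonsing_inv _ ((Matrix.isUnit_iff_isUnit_det _).mp hH)
    have h3 := congrFun (congrFun h2 i) j
    rw [Matrix.mul_apply, Matrix.one_apply] at h3
    have h4 := congrArg star h3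
    rw [star_sum] at h4
    simp only [StarMul.star_mul] at h4
    rw [h4]
    split_ifs <;> simp
  simp only [YY, Finset.smul_sum, smul_smul]
  rw [Finset.sum_comm]
  simp only [← Finset.sum_smul, h1]
  simp

theorem exists_posDef_fixed (hA : IsCQG A) (R : A →ₗ[ℂ] Matrix D D ℂ) (h1 : R 1 = 1)
    (hR : (∀ a b, R (a * b) = R a * R b) ∨ (∀ a b, R (a * b) = R b * R a))
    (hb : ∀ p q, IsBdd (ent R p q)) {v : Matrix κ κ A} {G : Matrix κ κ ℂ} (hv : Good v G)
    (hspan : ∀ a, R a ∈ Submodule.span ℂ (Set.range fun s : κ × κ => R (v s.1 s.2))) :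
    ∃ P : Matrix D D ℂ, P.PosDef ∧ FF R v G P = P := by
  obtain ⟨C, hC⟩ := exists_common_bound hb
  set T : ℕ → Matrix D D ℂ := fun k => (FF R v G)^[k] 1 with hT
  have hTs : ∀ k, T (k + 1) = FF R v G (T k) := fun k => Function.iterate_succ_apply' _ _ _
  have hIn : ∀ k, InN R (T k) := by
    intro k
    induction k with
    | zero => exact inN_one h1
    | succ k ih => rw [hTs]; exact ih.step hR hv
  obtain ⟨P, hP, hFP, hlow⟩ := exists_cesaro (FF R v G) T hTs (fun k => (hIn k).posSemidef hA)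
    _ (fun k => (hIn k).trace_le hA hC)
  refine ⟨P, ?_, hFP⟩
  obtain ⟨H, w, hHu, hG, hH, hw, hs'⟩ := hv.decomp hA
  -- the kernel is invariant
  have hinv : ∀ x : D → ℂ, P *ᵥ x = 0 → ∀ a, P *ᵥ (R a *ᵥ x) = 0 := by
    intro x hx a
    have h2 : ∀ k l, P *ᵥ (YY R v H k l *ᵥ x) = 0 := by
      have h3 : star x ⬝ᵥ (FF R v G P *ᵥ x) = 0 := by rw [hFP, hx, dotProduct_zero]
      have h4 : star x ⬝ᵥ (FF R v G P *ᵥ x)
          = ∑ k, ∑ l, star (YY R v H k l *ᵥ x) ⬝ᵥ (P *ᵥ (YY R v H k l *ᵥ x)) := by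
        rw [FF_eq R v hG, Matrix.sum_mulVec, dotProduct_sum]
        refine Finset.sum_congr rfl fun k _ => ?_
        rw [Matrix.sum_mulVec, dotProduct_sum]
        refine Finset.sum_congr rfl fun l _ => ?_
        rw [Matrix.star_mulVec, ← Matrix.dotProduct_mulVec, Matrix.mulVec_mulVec,
          Matrix.mulVec_mulVec, Matrix.mul_assoc]
      rw [h4] at h3
      have hnn : ∀ k l, 0 ≤ star (YY R v H k l *ᵥ x) ⬝ᵥ (P *ᵥ (YY R v H k l *ᵥ x)) :=
        fun k l => hP.dotProduct_mulVec_nonneg _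
      intro k l
      have h5 := (Finset.sum_eq_zero_iff_of_nonneg
        (fun k _ => Finset.sum_nonneg fun l _ => hnn k l)).mp h3 k (Finset.mem_univ _)
      have h6 := (Finset.sum_eq_zero_iff_of_nonneg (fun l _ => hnn k l)).mp h5 l
        (Finset.mem_univ _)
      exact (hP.dotProduct_mulVec_zero_iff _).mp h6
    have h7 : ∀ k j, P *ᵥ (R (v k j) *ᵥ x) = 0 := by
      intro k j
      rw [← YY_mulVec_inv R v hHu k j, Matrix.sum_mulVec, Matrix.mulVec_sum]
      refine Finset.sum_eq_zero fun l _ => ?_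
      rw [Matrix.smul_mulVec, Matrix.mulVec_smul, h2, smul_zero]
    have h8 := hspan a
    generalize R a = M0 at h8
    induction h8 using Submodule.span_induction with
    | mem M hM =>
      obtain ⟨s, rfl⟩ := hM
      exact h7 _ _
    | zero => simp
    | add M N _ _ hM hN => rw [Matrix.add_mulVec, Matrix.mulVec_add, hM, hN, add_zero]
    | smul c M _ hM => rw [Matrix.smul_mulVec, Matrix.mulVec_smul, hM, smul_zero]
  apply Matrix.PosDef.of_dotProduct_mulVec_pos hP.1
  intro x0 hx0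
  refine lt_of_le_of_ne (hP.dotProduct_mulVec_nonneg _) ?_
  intro h9
  have hPx0 := (hP.dotProduct_mulVec_zero_iff _).mp h9.symm
  set K : Submodule ℂ (EuclideanSpace ℂ D) :=
    { carrier := {x | P *ᵥ (WithLp.ofLp x) = 0}
      add_mem' := by
        intro x y hx hy
        simp only [Set.mem_setOf_eq, WithLp.ofLp_add, Matrix.mulVec_add] at *
        rw [hx, hy, add_zero]
      zero_mem' := by simp
      smul_mem' := by
        intro c x hx
        simp only [Set.mem_setOf_eq, WithLp.ofLp_smul, Matrix.mulVec_smul] at *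
        rw [hx, smul_zero] } with hK
  have hmemK : ∀ x : EuclideanSpace ℂ D, x ∈ K ↔ P *ᵥ (WithLp.ofLp x) = 0 := fun x => Iff.rfl
  set m := Module.finrank ℂ K with hm
  have hmpos : 0 < m := by
    rw [hm, Module.finrank_pos_iff_exists_ne_zero]
    refine ⟨⟨WithLp.toLp 2 x0, (hmemK _).mpr hPx0⟩, ?_⟩
    intro h
    apply hx0
    have := congrArg (fun z : K => WithLp.ofLp (z : EuclideanSpace ℂ D)) h
    simpa using this
  set b := stdOrthonormalBasis ℂ K with hbdef
  set J : Matrix D (Fin m) ℂ := Matrix.of fun i p => WithLp.ofLp (b p : EuclideanSpace ℂ D) i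
    with hJdef
  have hJJ : Jᴴ * J = 1 := by
    ext p q
    rw [Matrix.mul_apply, Matrix.one_apply]
    have h10 := orthonormal_iff_ite.mp b.orthonormal p q
    rw [Submodule.coe_inner, EuclideanSpace.inner_eq_star_dotProduct, dotProduct] at h10
    rw [← h10]
    refine Finset.sum_congr rfl fun i _ => ?_
    simp only [hJdef, Matrix.conjTranspose_apply, Matrix.of_apply, Pi.star_apply]
    ring
  have hPJ : P * J = 0 := by
    ext i p
    have h11 := (hmemK _).mp (b p).2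
    have := congrFun h11 i
    simpa [Matrix.mul_apply, Matrix.mulVec, dotProduct, hJdef] using this
  have hproj : ∀ x : D → ℂ, P *ᵥ x = 0 → J *ᵥ (Jᴴ *ᵥ x) = x := by
    intro x hx
    have hxK : WithLp.toLp 2 x ∈ K := (hmemK _).mpr hx
    have h12 := b.sum_repr' ⟨WithLp.toLp 2 x, hxK⟩
    have h13 := congrArg (fun z : K => WithLp.ofLp (z : EuclideanSpace ℂ D)) h12
    funext i
    have h14 := congrFun h13 i
    simp only [Submodule.coe_sum, Submodule.coe_smul, WithLp.ofLp_sum, WithLp.ofLp_smul,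
      Finset.sum_apply, Pi.smul_apply, smul_eq_mul] at h14
    rw [← h14]
    simp only [Matrix.mulVec, dotProduct]
    refine Finset.sum_congr rfl fun p _ => ?_
    rw [Submodule.coe_inner, EuclideanSpace.inner_eq_star_dotProduct, dotProduct, mul_comm]
    congr 1
    refine Finset.sum_congr rfl fun j _ => ?_
    simp only [hJdef, Matrix.conjTranspose_apply, Matrix.of_apply, Pi.star_apply]
    ring
  have hRJ : ∀ a, R a * J = J * (Jᴴ * R a * J) := by
    intro a
    ext i p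
    have h15 : P *ᵥ (R a *ᵥ (fun j => J j p)) = 0 := by
      apply hinv
      funext i
      have := congrFun (congrFun hPJ i) p
      simpa [Matrix.mul_apply, Matrix.mulVec, dotProduct] using this
    have h16 := congrFun (hproj _ h15) i
    calc (R a * J) i p = (R a *ᵥ (fun j => J j p)) i := rfl
      _ = (J *ᵥ (Jᴴ *ᵥ (R a *ᵥ (fun j => J j p)))) i := h16.symm
      _ = (J * (Jᴴ * R a * J)) i p := by
          rw [Matrix.mulVec_mulVec, Matrix.mulVec_mulVec]
          simp only [Matrix.mulVec, dotProduct, Matrix.mul_assoc]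
          rw [← Matrix.mul_apply]
          simp only [Matrix.mul_assoc]
  obtain ⟨c, hc, hcl⟩ := InN.lower hA h1 hR hb hmpos J hJJ hRJ
  have h17 := hlow m J c fun k => hcl _ (hIn k)
  rw [Matrix.mul_assoc, hPJ, Matrix.mul_zero, Matrix.trace_zero, Complex.zero_re] at h17
  linarith

/-- Variance argument: a vector fixed by the average is invariant. -/
theorem fixed_invariant (hA : IsCQG A) (R : A →ₗ[ℂ] Matrix D D ℂ)
    {v : Matrix κ κ A} {G : Matrix κ κ ℂ} (hv : Good v G) {P : Matrix D D ℂ} (hP : P.PosDef)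
    (hFP : FF R v G P = P) (e : D → ℂ) (he : ∑ i, ∑ j, G i j • (R (v i j) *ᵥ e) = e) :
    ∀ k j, R (v k j) *ᵥ e = if k = j then e else 0 := by
  obtain ⟨H, w, hHu, hG, hH, hw, hs'⟩ := hv.decomp hA
  set z : κ → κ → D → ℂ := fun k l => YY R v H k l *ᵥ e - star (H k l) • e with hz
  have hsum : ∑ k, ∑ l, star (z k l) ⬝ᵥ (P *ᵥ z k l) = 0 := by
    have e1 : ∀ k l, star (z k l) ⬝ᵥ (P *ᵥ z k l)
        = star (YY R v H k l *ᵥ e) ⬝ᵥ (P *ᵥ (YY R v H k l *ᵥ e))
          - H k l * (star e ⬝ᵥ (P *ᵥ (YY R v H k l *ᵥ e)))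
          - star (H k l) * (star (YY R v H k l *ᵥ e) ⬝ᵥ (P *ᵥ e))
          + (H k l * star (H k l)) * (star e ⬝ᵥ (P *ᵥ e)) := by
      intro k l
      simp only [hz, star_sub, star_smul, star_star, Matrix.mulVec_sub, Matrix.mulVec_smul,
        sub_dotProduct, dotProduct_sub, smul_dotProduct, dotProduct_smul, smul_eq_mul]
      ring
    simp only [e1, Finset.sum_add_distrib, Finset.sum_sub_distrib]
    have s1 : ∑ k, ∑ l, star (YY R v H k l *ᵥ e) ⬝ᵥ (P *ᵥ (YY R v H k l *ᵥ e))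
        = star e ⬝ᵥ (P *ᵥ e) := by
      conv_rhs => rw [← hFP, FF_eq R v hG, Matrix.sum_mulVec, dotProduct_sum]
      refine Finset.sum_congr rfl fun k _ => ?_
      rw [Matrix.sum_mulVec, dotProduct_sum]
      refine Finset.sum_congr rfl fun l _ => ?_
      rw [Matrix.star_mulVec, ← Matrix.dotProduct_mulVec, Matrix.mulVec_mulVec,
        Matrix.mulVec_mulVec, Matrix.mul_assoc]
    have s0 : ∑ k, ∑ l, H k l • (YY R v H k l *ᵥ e) = e := by
      calc ∑ k, ∑ l, H k l • (YY R v H k l *ᵥ e)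
          = ∑ k, ∑ i, G k i • (R (v k i) *ᵥ e) := by
            refine Finset.sum_congr rfl fun k _ => ?_
            simp only [YY, Matrix.sum_mulVec, Matrix.smul_mulVec, Finset.smul_sum, smul_smul]
            rw [Finset.sum_comm]
            refine Finset.sum_congr rfl fun i _ => ?_
            rw [← Finset.sum_smul, hG, Matrix.mul_apply]
            rfl
        _ = e := he
    have s2 : ∑ k, ∑ l, H k l * (star e ⬝ᵥ (P *ᵥ (YY R v H k l *ᵥ e)))
        = star e ⬝ᵥ (P *ᵥ e) := by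
      calc ∑ k, ∑ l, H k l * (star e ⬝ᵥ (P *ᵥ (YY R v H k l *ᵥ e)))
          = star e ⬝ᵥ (P *ᵥ ∑ k, ∑ l, H k l • (YY R v H k l *ᵥ e)) := by
            simp only [Matrix.mulVec_sum, dotProduct_sum, Matrix.mulVec_smul, dotProduct_smul,
              smul_eq_mul]
        _ = _ := by rw [s0]
    have s3 : ∑ k, ∑ l, star (H k l) * (star (YY R v H k l *ᵥ e) ⬝ᵥ (P *ᵥ e))
        = star e ⬝ᵥ (P *ᵥ e) := by
      calc ∑ k, ∑ l, star (H k l) * (star (YY R v H k l *ᵥ e) ⬝ᵥ (P *ᵥ e))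
          = star (∑ k, ∑ l, H k l • (YY R v H k l *ᵥ e)) ⬝ᵥ (P *ᵥ e) := by
            simp only [star_sum, star_smul, sum_dotProduct, smul_dotProduct, smul_eq_mul]
        _ = _ := by rw [s0]
    have s4 : ∑ k, ∑ l, (H k l * star (H k l)) * (star e ⬝ᵥ (P *ᵥ e))
        = star e ⬝ᵥ (P *ᵥ e) := by
      simp only [← Finset.sum_mul]
      have : ∑ k, ∑ l, H k l * star (H k l) = ((hs H : ℝ) : ℂ) := by
        rw [← trace_mul_conjTranspose_self, Matrix.trace]
        simp only [Matrix.diag_apply, Matrix.mul_apply, Matrix.conjTranspose_apply]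
      rw [this, hH]
      simp
    rw [s1, s2, s3, s4]
    ring
  have hz0 : ∀ k l, z k l = 0 := by
    have hnn : ∀ k l, 0 ≤ star (z k l) ⬝ᵥ (P *ᵥ z k l) :=
      fun k l => hP.posSemidef.dotProduct_mulVec_nonneg _
    intro k l
    have h5 := (Finset.sum_eq_zero_iff_of_nonneg
      (fun k _ => Finset.sum_nonneg fun l _ => hnn k l)).mp hsum k (Finset.mem_univ _)
    have h6 := (Finset.sum_eq_zero_iff_of_nonneg (fun l _ => hnn k l)).mp h5 l
      (Finset.mem_univ _)
    by_contra hne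
    exact (hP.dotProduct_mulVec_pos hne).ne' h6
  intro k j
  have hY : ∀ l, YY R v H k l *ᵥ e = star (H k l) • e := fun l => sub_eq_zero.mp (hz0 k l)
  have h1 : ∑ l, star (H⁻¹ l j) * star (H k l) = if k = j then 1 else 0 := by
    have h2 : H * H⁻¹ = 1 := Matrix.mul_nonsing_inv _ ((Matrix.isUnit_iff_isUnit_det _).mp hHu)
    have h3 := congrFun (congrFun h2 k) j
    rw [Matrix.mul_apply, Matrix.one_apply] at h3
    have h4 := congrArg star h3
    rw [star_sum] at h4
    simp only [StarMul.star_mul] at h4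
    rw [h4]
    split_ifs <;> simp
  rw [← YY_mulVec_inv R v hHu k j, Matrix.sum_mulVec]
  simp only [Matrix.smul_mulVec, hY, smul_smul]
  rw [← Finset.sum_smul, h1]
  split_ifs <;> simp

end

end Pool.Agent.DQG
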