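import Mathlib

open scoped Matrix.Norms.L2Operator ComplexOrder MatrixOrder
open Matrix Filter Topology

namespace Pool.Agent.DQG

/-- The square of the Hilbert-Schmidt norm. -/
noncomputable def hs {m n : Type*} [Fintype m] [Fintype n] (M : Matrix m n ℂ) : ℝ :=
  ∑ i, ∑ j, ‖M i j‖ ^ 2

theorem hs_nonneg {m n : Type*} [Fintype m] [Fintype n] (M : Matrix m n ℂ) : 0 ≤ hs M :=
  Finset.sum_nonneg fun _ _ => Finset.sum_nonneg fun _ _ => by positivity

theorem trace_conjTranspose_mul_self {m n : Type*} [Fintype m] [Fintype n] (M : Matrix m n ℂ) :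
    (Mᴴ * M).trace = (hs M : ℂ) := by
  rw [Matrix.trace, hs, Complex.ofReal_sum, ]
  simp only [Matrix.diag_apply, Matrix.mul_apply, Matrix.conjTranspose_apply, Complex.ofReal_sum]
  rw [Finset.sum_comm]
  refine Finset.sum_congr rfl fun i _ => Finset.sum_congr rfl fun j _ => ?_
  rw [Complex.star_def, mul_comm, Complex.mul_conj, Complex.normSq_eq_norm_sq]

theorem trace_mul_conjTranspose_self {m n : Type*} [Fintype m] [Fintype n] (M : Matrix m n ℂ) :
    (M * Mᴴ).trace = (hs M : ℂ) := by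
  rw [Matrix.trace_mul_comm, trace_conjTranspose_mul_self]

theorem hs_mul_le {m n l : Type*} [Fintype m] [Fintype n] [Fintype l] [DecidableEq n]
    (M : Matrix m n ℂ) (K : Matrix n l ℂ) : hs (M * K) ≤ ‖M‖ ^ 2 * hs K := by
  unfold hs
  rw [Finset.sum_comm, Finset.sum_comm (s := (Finset.univ : Finset n)), Finset.mul_sum]
  refine Finset.sum_le_sum fun j _ => ?_
  have h := Matrix.l2_opNorm_mulVec M (WithLp.toLp 2 (fun i => K i j))
  have h1 : ‖(WithLp.toLp 2 (fun i => K i j) : EuclideanSpace ℂ n)‖ ^ 2 = ∑ i, ‖K i j‖ ^ 2 := by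
    rw [EuclideanSpace.norm_sq_eq]
  have h2 := pow_le_pow_left₀ (norm_nonneg _) h 2
  rw [mul_pow, h1, EuclideanSpace.norm_sq_eq] at h2
  refine le_trans (le_of_eq ?_) h2
  refine Finset.sum_congr rfl fun i _ => ?_
  congr 2

theorem norm_entry_le_of_posSemidef {D : Type*} [Fintype D] [DecidableEq D] {T : Matrix D D ℂ}
    (hT : T.PosSemidef) (i j : D) : ‖T i j‖ ≤ T.trace.re := by
  obtain ⟨B, hB⟩ : ∃ B : Matrix D D ℂ, T = Bᴴ * B := by
    rw [← Matrix.nonneg_iff_posSemidef] at hT
    exact CStarAlgebra.nonneg_iff_eq_star_mul_self.mp hT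
  have h1 : T.trace.re = hs B := by rw [hB, trace_conjTranspose_mul_self, Complex.ofReal_re]
  rw [h1, hB, Matrix.mul_apply]
  calc ‖∑ k, Bᴴ i k * B k j‖ ≤ ∑ k, ‖Bᴴ i k * B k j‖ := norm_sum_le _ _
    _ ≤ ∑ k, ∑ l, ‖B k l‖ ^ 2 := by
        refine Finset.sum_le_sum fun k _ => ?_
        rw [norm_mul, Matrix.conjTranspose_apply, norm_star]
        have hi : ‖B k i‖ ^ 2 ≤ ∑ l, ‖B k l‖ ^ 2 :=
          Finset.single_le_sum (f := fun l => ‖B k l‖ ^ 2) (fun l _ => by positivity)
            (Finset.mem_univ i)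
        have hj : ‖B k j‖ ^ 2 ≤ ∑ l, ‖B k l‖ ^ 2 :=
          Finset.single_le_sum (f := fun l => ‖B k l‖ ^ 2) (fun l _ => by positivity)
            (Finset.mem_univ j)
        nlinarith [sq_nonneg (‖B k i‖ - ‖B k j‖)]
    _ = hs B := rfl

/-- Limit points of Cesaro means. -/
theorem exists_cesaro {D : Type*} [Fintype D] [DecidableEq D]
    (F : Matrix D D ℂ →ₗ[ℂ] Matrix D D ℂ) (T : ℕ → Matrix D D ℂ) (hT : ∀ k, T (k + 1) = F (T k))
    (hpos : ∀ k, (T k).PosSemidef) (C : ℝ) (hC : ∀ k, (T k).trace.re ≤ C) :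
    ∃ P : Matrix D D ℂ, P.PosSemidef ∧ F P = P ∧
      ∀ (m : ℕ) (J : Matrix D (Fin m) ℂ) (c : ℝ), (∀ k, c ≤ (Jᴴ * T k * J).trace.re) →
        c ≤ (Jᴴ * P * J).trace.re := by
  have hentry : ∀ k i j, ‖T k i j‖ ≤ C := fun k i j =>
    (norm_entry_le_of_posSemidef (hpos k) i j).trans (hC k)
  set S : ℕ → Matrix D D ℂ := fun n => ((n + 1 : ℕ) : ℂ)⁻¹ • ∑ k ∈ Finset.range (n + 1), T k with hS
  have hn : ∀ n : ℕ, ((n + 1 : ℕ) : ℂ) ≠ 0 := fun n => by exact_mod_cast Nat.succ_ne_zero n
  have hSentry : ∀ n i j, ‖S n i j‖ ≤ C := by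
    intro n i j
    have h1 : S n i j = ((n + 1 : ℕ) : ℂ)⁻¹ * ∑ k ∈ Finset.range (n + 1), T k i j := by
      simp only [hS, Matrix.smul_apply, smul_eq_mul]
      congr 1
      rw [Matrix.sum_apply]
    rw [h1, norm_mul, norm_inv, Complex.norm_natCast]
    have h2 : ‖∑ k ∈ Finset.range (n + 1), T k i j‖ ≤ (n + 1 : ℕ) * C := by
      refine (norm_sum_le _ _).trans ?_
      refine (Finset.sum_le_sum fun k _ => hentry k i j).trans ?_
      simp
    rw [inv_mul_le_iff₀ (by positivity)]
    exact h2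
  -- compactness in the product topology
  have hcpt : IsCompact (Set.pi Set.univ fun _ : D => Set.pi Set.univ fun _ : D =>
      Metric.closedBall (0 : ℂ) C) :=
    isCompact_univ_pi fun _ => isCompact_univ_pi fun _ => isCompact_closedBall _ _
  obtain ⟨P, _, φ, hφ, hlim⟩ := hcpt.tendsto_subseq (x := fun n : ℕ => (fun i j => S n i j : D → D → ℂ))
    (fun n i _ j _ => by simpa using hSentry n i j)
  have hlim' : ∀ i j, Tendsto (fun n => S (φ n) i j) atTop (𝓝 (P i j)) := by
    intro i j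
    have h1 := (tendsto_pi_nhds.mp hlim) i
    exact (tendsto_pi_nhds.mp h1) j
  have hSpos : ∀ n, (S n).PosSemidef := by
    intro n
    have h1 : (∑ k ∈ Finset.range (n + 1), T k).PosSemidef :=
      Matrix.posSemidef_sum _ fun k _ => hpos k
    have h2 : (0 : ℂ) ≤ ((n + 1 : ℕ) : ℂ)⁻¹ := by
      have : ((n + 1 : ℕ) : ℂ)⁻¹ = (((n + 1 : ℕ) : ℝ)⁻¹ : ℝ) := by push_cast; rfl
      rw [this, Complex.zero_le_real]
      positivity
    exact h1.smul h2
  refine ⟨Matrix.of P, ?_, ?_, ?_⟩
  · apply Matrix.PosSemidef.of_dotProduct_mulVec_nonneg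
    · ext i j
      simp only [Matrix.conjTranspose_apply, Matrix.of_apply]
      have h1 : Tendsto (fun n => star (S (φ n) j i)) atTop (𝓝 (star (P j i))) :=
        (continuous_star.tendsto _).comp (hlim' j i)
      have h2 : (fun n => star (S (φ n) j i)) = fun n => S (φ n) i j := by
        funext n
        have := congrFun (congrFun (hSpos (φ n)).1 i) j
        simpa [Matrix.conjTranspose_apply] using this
      rw [h2] at h1
      exact tendsto_nhds_unique h1 (hlim' i j)
    · intro x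
      have h1 : Tendsto (fun n => star x ⬝ᵥ (S (φ n) *ᵥ x)) atTop
          (𝓝 (star x ⬝ᵥ ((Matrix.of P) *ᵥ x))) := by
        simp only [dotProduct, Matrix.mulVec, Matrix.of_apply]
        exact tendsto_finset_sum _ fun i _ => Tendsto.const_mul _ <|
          tendsto_finset_sum _ fun j _ => (hlim' i j).mul_const _
      exact ge_of_tendsto' h1 fun n => (hSpos _).dotProduct_mulVec_nonneg x
  · -- `F S_n - S_n → 0`
    have hFS : ∀ n, F (S n) - S n = ((n + 1 : ℕ) : ℂ)⁻¹ • (T (n + 1) - T 0) := by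
      intro n
      simp only [hS, map_smul, map_sum]
      rw [← smul_sub]
      congr 1
      simp only [← hT]
      rw [← Finset.sum_sub_distrib]
      exact Finset.sum_range_sub T (n + 1)
    have h0 : ∀ i j, Tendsto (fun n => (F (S (φ n)) - S (φ n)) i j) atTop (𝓝 0) := by
      intro i j
      have h1 : Tendsto (fun n : ℕ => ((n + 1 : ℕ) : ℝ)⁻¹ * (2 * C)) atTop (𝓝 0) := by
        have := (tendsto_inv_atTop_zero.comp
          ((tendsto_natCast_atTop_atTop (R := ℝ)).comp (tendsto_add_atTop_nat 1))).mul_const (2 * C)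
        simpa using this
      have h2 : Tendsto (fun n : ℕ => ((φ n + 1 : ℕ) : ℝ)⁻¹ * (2 * C)) atTop (𝓝 0) :=
        h1.comp hφ.tendsto_atTop
      refine squeeze_zero_norm (fun n => ?_) h2
      rw [hFS]
      simp only [Matrix.smul_apply, Matrix.sub_apply, smul_eq_mul, norm_mul, norm_inv,
        Complex.norm_natCast]
      refine mul_le_mul_of_nonneg_left ?_ (by positivity)
      refine (norm_sub_le _ _).trans ?_
      have := hentry (φ n + 1) i j
      have := hentry 0 i j
      linarith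
    have hF : ∀ i j, Tendsto (fun n => F (S (φ n)) i j) atTop (𝓝 (F (Matrix.of P) i j)) := by
      intro i j
      -- expand in the basis of matrix units
      have e1 : ∀ M : Matrix D D ℂ, F M i j = ∑ a, ∑ b, M a b * F (Matrix.single a b 1) i j := by
        intro M
        conv_lhs => rw [Matrix.matrix_eq_sum_single M]
        rw [map_sum, Matrix.sum_apply]
        refine Finset.sum_congr rfl fun a _ => ?_
        rw [map_sum, Matrix.sum_apply]
        refine Finset.sum_congr rfl fun b _ => ?_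
        have : Matrix.single a b (M a b) = M a b • Matrix.single a b (1 : ℂ) := by
          rw [Matrix.smul_single]; simp
        rw [this, map_smul, Matrix.smul_apply, smul_eq_mul]
      have e2 : (fun n => F (S (φ n)) i j)
          = fun n => ∑ a, ∑ b, S (φ n) a b * F (Matrix.single a b 1) i j := by
        funext n; exact e1 _
      rw [e2, e1]
      exact tendsto_finset_sum _ fun a _ => tendsto_finset_sum _ fun b _ => (hlim' a b).mul_const _
    ext i j
    have h3 := (hF i j).sub (h0 i j)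
    have h4 : (fun n => F (S (φ n)) i j - (F (S (φ n)) - S (φ n)) i j)
        = fun n => S (φ n) i j := by
      funext n
      simp
    rw [h4, sub_zero] at h3
    exact tendsto_nhds_unique h3 (hlim' i j)
  · intro m J c hc
    have h1 : Tendsto (fun n => (Jᴴ * S (φ n) * J).trace.re) atTop
        (𝓝 ((Jᴴ * Matrix.of P * J).trace.re)) := by
      refine (Complex.continuous_re.tendsto _).comp ?_
      simp only [Matrix.trace, Matrix.diag_apply, Matrix.mul_apply, Matrix.of_apply]
      exact tendsto_finset_sum _ fun i _ => tendsto_finset_sum _ fun j _ =>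
        Tendsto.mul_const _ <| tendsto_finset_sum _ fun k _ => (hlim' k j).const_mul _
    refine ge_of_tendsto' h1 fun n => ?_
    have h2 : (Jᴴ * S (φ n) * J).trace.re
        = ((φ n + 1 : ℕ) : ℝ)⁻¹ * ∑ k ∈ Finset.range (φ n + 1), (Jᴴ * T k * J).trace.re := by
      simp only [hS, Matrix.mul_smul, Matrix.smul_mul, Matrix.mul_sum, Matrix.sum_mul,
        Matrix.trace_smul, Matrix.trace_sum, smul_eq_mul]
      have : ((φ n + 1 : ℕ) : ℂ)⁻¹ = ((((φ n + 1 : ℕ) : ℝ)⁻¹ : ℝ) : ℂ) := by push_cast; rfl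
      rw [this, Complex.re_ofReal_mul, Complex.re_sum]
    rw [h2, le_inv_mul_iff₀ (by positivity)]
    calc ((φ n + 1 : ℕ) : ℝ) * c = ∑ k ∈ Finset.range (φ n + 1), c := by simp
      _ ≤ _ := Finset.sum_le_sum fun k _ => hc k

end Pool.Agent.DQG
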