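import Pool.Agent.DQG.Conj2
import Pool.Agent.DQG.Lin

open scoped TensorProduct Matrix.Norms.L2Operator ComplexOrder MatrixOrder Kronecker
open Coalgebra HopfAlgebra Matrix

namespace Pool.Agent.DQG

universe u

section
variable {A : Type u} [Ring A] [StarRing A] [HopfAlgebra ℂ A]
variable {ι κ : Type} [Fintype ι] [DecidableEq ι] [Fintype κ] [DecidableEq κ]

/-- A unitary corepresentation with its normalised weight. -/
structure Good (u : Matrix ι ι A) (G : Matrix ι ι ℂ) : Prop where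
  ne : Nonempty ι
  corep : IsUnitaryCorep u
  pos : G.PosDef
  tr : G.trace = 1
  inv : InvForm u G⁻¹

theorem InvForm.smul {u : Matrix ι ι A} {Q : Matrix ι ι ℂ} (h : InvForm u Q) (c : ℂ) :
    InvForm u (c • Q) := by
  intro i j
  have := h i j
  simp only [Matrix.smul_apply, smul_eq_mul, mul_smul]
  rw [← this]
  simp only [Finset.smul_sum]

theorem exists_good (hA : IsCQG A) [Nonempty ι] {u : Matrix ι ι A} (hu : IsUnitaryCorep u) :
    ∃ G : Matrix ι ι ℂ, Good u G := by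
  obtain ⟨Q, hQ, hi⟩ := exists_invForm hA hu
  have hQi : (Q⁻¹).PosDef := hQ.inv
  have ht : 0 < (Q⁻¹).trace := hQi.trace_pos
  set t := (Q⁻¹).trace with htdef
  have ht0 : t ≠ 0 := ht.ne'
  refine ⟨t⁻¹ • Q⁻¹, ⟨inferInstance, hu, hQi.smul ?_, ?_, ?_⟩⟩
  · rw [Complex.pos_iff] at ht
    have h1 : t = ((t.re : ℝ) : ℂ) := by
      apply Complex.ext
      · simp
      · simp [← ht.2]
    rw [h1, ← Complex.ofReal_inv, Complex.zero_lt_real]
    exact inv_pos.mpr ht.1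
  · rw [Matrix.trace_smul, smul_eq_mul, ← htdef, inv_mul_cancel₀ ht0]
  · have h2 : (t⁻¹ • Q⁻¹)⁻¹ = t • Q := by
      apply Matrix.inv_eq_left_inv
      rw [Matrix.smul_mul, Matrix.mul_smul, smul_smul, mul_inv_cancel₀ ht0, one_smul]
      exact Matrix.mul_nonsing_inv _ ((Matrix.isUnit_iff_isUnit_det _).mp hQ.isUnit)
    rw [h2]
    exact hi.smul t

theorem Good.tens {u : Matrix ι ι A} {G : Matrix ι ι ℂ} (hu : Good u G)
    {v : Matrix κ κ A} {G' : Matrix κ κ ℂ} (hv : Good v G') :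
    Good (DQG.tens u v) (G ⊗ₖ G') := by
  haveI := hu.ne
  haveI := hv.ne
  refine ⟨inferInstance, hu.corep.tens hv.corep, hu.pos.kronecker hv.pos, ?_, ?_⟩
  · rw [Matrix.trace_kronecker, hu.tr, hv.tr, one_mul]
  · rw [Matrix.inv_kronecker]
    exact hu.inv.tens hv.inv

theorem good_one : Good (1 : Matrix Unit Unit A) 1 := by
  refine ⟨inferInstance, isUnitaryCorep_one, Matrix.PosDef.one, ?_, ?_⟩
  · simp
  · rw [inv_one]
    exact invForm_one

theorem Good.decomp (hA : IsCQG A) {u : Matrix ι ι A} {G : Matrix ι ι ℂ} (h : Good u G) :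
    ∃ (H : Matrix ι ι ℂ) (w : Matrix ι ι A), IsUnit H ∧ G = H * Hᴴ ∧ hs H = 1 ∧
      IsUnitaryCorep w ∧ ∀ i j, star (u i j) = ∑ a, ∑ b, (H i a * H⁻¹ b j) • w a b := by
  obtain ⟨S, w, hS, hQ, hw, hs'⟩ := exists_unitary_conj hA h.corep h.pos.inv h.inv
  have hdet := (Matrix.isUnit_iff_isUnit_det _).mp hS
  have hSS : S * S⁻¹ = 1 := Matrix.mul_nonsing_inv _ hdet
  have hSS' : S⁻¹ * S = 1 := Matrix.nonsing_inv_mul _ hdet
  have hG : G = S⁻¹ * (S⁻¹)ᴴ := by
    have h1 : (G⁻¹)⁻¹ = G :=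
      Matrix.nonsing_inv_nonsing_inv _ ((Matrix.isUnit_iff_isUnit_det _).mp h.pos.isUnit)
    rw [← h1]
    apply Matrix.inv_eq_left_inv
    rw [hQ]
    calc S⁻¹ * (S⁻¹)ᴴ * (Sᴴ * S) = S⁻¹ * (S * S⁻¹)ᴴ * S := by
          rw [Matrix.conjTranspose_mul]; simp only [Matrix.mul_assoc]
      _ = 1 := by rw [hSS, Matrix.conjTranspose_one, Matrix.mul_one, hSS']
  refine ⟨S⁻¹, w, ?_, hG, ?_, hw, ?_⟩
  · rw [Matrix.isUnit_nonsing_inv_iff]
    exact hS
  · have h2 := trace_mul_conjTranspose_self S⁻¹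
    rw [← hG, h.tr] at h2
    exact_mod_cast h2.symm
  · intro i j
    rw [hs' i j, Matrix.nonsing_inv_nonsing_inv _ hdet]

end

section
variable {A : Type u} [Ring A] [StarRing A] [HopfAlgebra ℂ A]
variable {ι κ : Type} [Fintype ι] [DecidableEq ι] [Fintype κ] [DecidableEq κ]
variable {D : Type} [Fintype D] [DecidableEq D]

/-- `T ↦ ∑ G_ij R(u_ki)ᴴ T R(u_kj)`. -/
noncomputable def FF (R : A →ₗ[ℂ] Matrix D D ℂ) (u : Matrix ι ι A) (G : Matrix ι ι ℂ) :
    Matrix D D ℂ →ₗ[ℂ] Matrix D D ℂ where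
  toFun T := ∑ i, ∑ j, G i j • ∑ k, (R (u k i))ᴴ * T * R (u k j)
  map_add' S T := by
    simp only [Matrix.mul_add, Matrix.add_mul, Finset.sum_add_distrib, smul_add]
  map_smul' c T := by
    simp only [Matrix.mul_smul, Matrix.smul_mul, Finset.smul_sum, RingHom.id_apply]
    refine Finset.sum_congr rfl fun i _ => Finset.sum_congr rfl fun j _ =>
      Finset.sum_congr rfl fun k _ => smul_comm _ _ _

theorem FF_apply (R : A →ₗ[ℂ] Matrix D D ℂ) (u : Matrix ι ι A) (G : Matrix ι ι ℂ)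
    (T : Matrix D D ℂ) :
    FF R u G T = ∑ i, ∑ j, G i j • ∑ k, (R (u k i))ᴴ * T * R (u k j) := rfl

/-- The square-root entries. -/
noncomputable def YY (R : A →ₗ[ℂ] Matrix D D ℂ) (u : Matrix ι ι A) (H : Matrix ι ι ℂ) (k l : ι) :
    Matrix D D ℂ := ∑ i, star (H i l) • R (u k i)

theorem FF_eq (R : A →ₗ[ℂ] Matrix D D ℂ) (u : Matrix ι ι A) {G H : Matrix ι ι ℂ}
    (hG : G = H * Hᴴ) (T : Matrix D D ℂ) :
    FF R u G T = ∑ k, ∑ l, (YY R u H k l)ᴴ * T * YY R u H k l := by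
  have e1 : ∀ k l, (YY R u H k l)ᴴ * T * YY R u H k l
      = ∑ i, ∑ j, (H i l * star (H j l)) • ((R (u k i))ᴴ * T * R (u k j)) := by
    intro k l
    simp only [YY, Matrix.conjTranspose_sum, Matrix.conjTranspose_smul, star_star,
      Finset.sum_mul, Finset.mul_sum, Matrix.smul_mul, Matrix.mul_smul, smul_smul]
    rw [Finset.sum_comm]
    refine Finset.sum_congr rfl fun i _ => Finset.sum_congr rfl fun j _ => ?_
    rw [mul_comm]
  rw [FF_apply]
  have e2 : ∀ k, ∑ l, (YY R u H k l)ᴴ * T * YY R u H k l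
      = ∑ i, ∑ j, G i j • ((R (u k i))ᴴ * T * R (u k j)) := by
    intro k
    simp only [e1]
    rw [Finset.sum_comm]
    refine Finset.sum_congr rfl fun i _ => ?_
    rw [Finset.sum_comm]
    refine Finset.sum_congr rfl fun j _ => ?_
    rw [← Finset.sum_smul, hG, Matrix.mul_apply]
    rfl
  simp only [e2, Finset.smul_sum]
  symm
  rw [Finset.sum_comm]
  refine Finset.sum_congr rfl fun i _ => ?_
  rw [Finset.sum_comm]

theorem FF_hom {R : A →ₗ[ℂ] Matrix D D ℂ} (hR : ∀ a b, R (a * b) = R a * R b)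
    (u : Matrix ι ι A) (G : Matrix ι ι ℂ) (v : Matrix κ κ A) (G' : Matrix κ κ ℂ)
    (T : Matrix D D ℂ) : FF R (tens u v) (G ⊗ₖ G') T = FF R v G' (FF R u G T) := by
  simp only [FF_apply, Fintype.sum_prod_type, tens_apply, Matrix.kroneckerMap_apply, hR,
    Matrix.conjTranspose_mul]
  have e1 : ∀ k l, G' k l • ∑ b, (R (v b k))ᴴ * (∑ i, ∑ j, G i j • ∑ a, (R (u a i))ᴴ * T *
      R (u a j)) * R (v b l) = ∑ i, ∑ j, (G i j * G' k l) • ∑ a, ∑ b,
        ((R (v b k))ᴴ * (R (u a i))ᴴ * T * (R (u a j) * R (v b l))) := by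
    intro k l
    simp only [Finset.mul_sum, Finset.sum_mul, Finset.smul_sum, Matrix.mul_smul, Matrix.smul_mul,
      smul_smul]
    rw [Finset.sum_comm]
    refine Finset.sum_congr rfl fun i _ => ?_
    rw [Finset.sum_comm]
    refine Finset.sum_congr rfl fun j _ => ?_
    rw [Finset.sum_comm]
    refine Finset.sum_congr rfl fun a _ => Finset.sum_congr rfl fun b _ => ?_
    rw [mul_comm (G i j)]
    simp only [Matrix.mul_assoc]
  simp only [e1]
  rw [Finset.sum_comm]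
  refine Finset.sum_congr rfl fun k _ => ?_
  rw [Finset.sum_comm]
  rw [Finset.sum_comm]
  have e2 : ∀ i, ∑ j, ∑ l, (G i j * G' k l) • ∑ a, ∑ b,
      ((R (v b k))ᴴ * (R (u a i))ᴴ * T * (R (u a j) * R (v b l)))
      = ∑ l, ∑ j, (G i j * G' k l) • ∑ a, ∑ b,
      ((R (v b k))ᴴ * (R (u a i))ᴴ * T * (R (u a j) * R (v b l))) := fun i => Finset.sum_comm
  simp only [e2]
  rw [Finset.sum_comm]

theorem FF_anti {R : A →ₗ[ℂ] Matrix D D ℂ} (hR : ∀ a b, R (a * b) = R b * R a)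
    (u : Matrix ι ι A) (G : Matrix ι ι ℂ) (v : Matrix κ κ A) (G' : Matrix κ κ ℂ)
    (T : Matrix D D ℂ) : FF R (tens v u) (G' ⊗ₖ G) T = FF R v G' (FF R u G T) := by
  simp only [FF_apply, Fintype.sum_prod_type, tens_apply, Matrix.kroneckerMap_apply, hR,
    Matrix.conjTranspose_mul]
  have e1 : ∀ k l, G' k l • ∑ b, (R (v b k))ᴴ * (∑ i, ∑ j, G i j • ∑ a, (R (u a i))ᴴ * T *
      R (u a j)) * R (v b l) = ∑ i, ∑ j, (G' k l * G i j) • ∑ b, ∑ a,
        ((R (v b k))ᴴ * (R (u a i))ᴴ * T * (R (u a j) * R (v b l))) := by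
    intro k l
    simp only [Finset.mul_sum, Finset.sum_mul, Finset.smul_sum, Matrix.mul_smul, Matrix.smul_mul,
      smul_smul]
    rw [Finset.sum_comm]
    refine Finset.sum_congr rfl fun i _ => ?_
    rw [Finset.sum_comm]
    refine Finset.sum_congr rfl fun j _ => ?_
    refine Finset.sum_congr rfl fun a _ => Finset.sum_congr rfl fun b _ => ?_
    simp only [Matrix.mul_assoc]
  simp only [e1]
  refine Finset.sum_congr rfl fun k _ => ?_
  rw [Finset.sum_comm]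

end

end Pool.Agent.DQG
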