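import Pool.Agent.DQG.Unit

open scoped TensorProduct Matrix.Norms.L2Operator ComplexOrder MatrixOrder
open Coalgebra HopfAlgebra Matrix

namespace Pool.Agent.DQG

universe u

section
variable {A : Type u} [Ring A] [StarRing A] [HopfAlgebra ℂ A]
variable {ι κ : Type} [Fintype ι] [DecidableEq ι] [Fintype κ] [DecidableEq κ]
variable {D : Type} [Fintype D] [DecidableEq D]

/-- Functionals on a finite-dimensional space of functionals are evaluations. -/
theorem exists_point (V : Submodule ℂ (A →ₗ[ℂ] ℂ)) [FiniteDimensional ℂ V] (φ : V →ₗ[ℂ] ℂ) :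
    ∃ b : A, ∀ x : V, φ x = x.1 b := by
  let ev : A →ₗ[ℂ] Module.Dual ℂ V :=
    { toFun := fun b =>
        { toFun := fun x => x.1 b
          map_add' := fun x y => by simp
          map_smul' := fun c x => by simp }
      map_add' := fun a b => by ext x; simp
      map_smul' := fun c a => by ext x; simp }
  have hev : ∀ b x, ev b x = x.1 b := fun _ _ => rfl
  have h1 : (LinearMap.range ev).dualCoannihilator = ⊥ := by
    rw [eq_bot_iff]
    intro x hx
    rw [Submodule.mem_dualCoannihilator] at hx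
    rw [Submodule.mem_bot]
    apply Subtype.ext
    ext b
    have := hx (ev b) ⟨b, rfl⟩
    rw [hev] at this
    simpa using this
  have h2 : LinearMap.range ev = ⊤ := by
    rw [← Subspace.dualCoannihilator_dualAnnihilator_eq (W := LinearMap.range ev), h1,
      Submodule.dualAnnihilator_bot]
  have h3 : φ ∈ LinearMap.range ev := by rw [h2]; trivial
  obtain ⟨b, hb⟩ := h3
  exact ⟨b, fun x => by rw [← hb, hev]⟩

theorem ext_entries (hA : IsCQG A) {x y : A →ₗ[ℂ] ℂ}
    (h : ∀ (ι : Type) [Fintype ι] [DecidableEq ι] (u : Matrix ι ι A), IsUnitaryCorep u →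
      ∀ i j, x (u i j) = y (u i j)) : x = y := by
  ext a
  refine hA.induction (p := fun a => x a = y a) ?_ ?_ ?_ ?_ a
  · rintro _ ⟨ι, i1, i2, u, hu, i, j, rfl⟩
    exact h ι u hu i j
  · simp
  · intro a b ha hb
    rw [map_add, map_add, ha, hb]
  · intro c a ha
    rw [map_smul, map_smul, ha]

/-- `M L(a) N`. -/
noncomputable def sandwich (M N : Matrix D D ℂ) (L : A →ₗ[ℂ] Matrix D D ℂ) :
    A →ₗ[ℂ] Matrix D D ℂ where
  toFun a := M * L a * N
  map_add' a b := by rw [map_add, Matrix.mul_add, Matrix.add_mul]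
  map_smul' c a := by simp

theorem sandwich_apply (M N : Matrix D D ℂ) (L : A →ₗ[ℂ] Matrix D D ℂ) (a : A) :
    sandwich M N L a = M * L a * N := rfl

theorem ent_sandwich (M N : Matrix D D ℂ) (L : A →ₗ[ℂ] Matrix D D ℂ) (i j : D) :
    ent (sandwich M N L) i j = ∑ q, ∑ p, (M i p * N q j) • ent L p q := by
  ext a
  rw [ent_apply, sandwich_apply, Matrix.mul_apply]
  simp only [Matrix.mul_apply, LinearMap.sum_apply, LinearMap.smul_apply, ent_apply, smul_eq_mul,
    Finset.sum_mul]
  refine Finset.sum_congr rfl fun q _ => Finset.sum_congr rfl fun p _ => ?_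
  ring

theorem isBdd_sandwich {M N : Matrix D D ℂ} {L : A →ₗ[ℂ] Matrix D D ℂ}
    (hL : ∀ p q, IsBdd (ent L p q)) (i j : D) : IsBdd (ent (sandwich M N L) i j) := by
  rw [ent_sandwich]
  exact isBdd_sum _ _ fun q _ => isBdd_sum _ _ fun p _ => (hL p q).smul _

/-- The conjugate representation. -/
noncomputable def conjRep (hs : ∀ (c : ℂ) (a : A), star (c • a) = (starRingEnd ℂ c) • star a)
    (L : A →ₗ[ℂ] Matrix D D ℂ) : A →ₗ[ℂ] Matrix D D ℂ where
  toFun a := Matrix.of fun i j => starF hs (ent L i j) a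
  map_add' a b := by ext i j; simp
  map_smul' c a := by ext i j; simp

theorem ent_conjRep (hs : ∀ (c : ℂ) (a : A), star (c • a) = (starRingEnd ℂ c) • star a)
    (L : A →ₗ[ℂ] Matrix D D ℂ) (i j : D) : ent (conjRep hs L) i j = starF hs (ent L i j) := by
  ext a; rfl

theorem conjRep_apply (hs : ∀ (c : ℂ) (a : A), star (c • a) = (starRingEnd ℂ c) • star a)
    (L : A →ₗ[ℂ] Matrix D D ℂ) (a : A) (i j : D) :
    conjRep hs L a i j = starRingEnd ℂ (L (star (antipode ℂ a)) i j) := rfl

theorem conjRep_corep (hs : ∀ (c : ℂ) (a : A), star (c • a) = (starRingEnd ℂ c) • star a)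
    (L : A →ₗ[ℂ] Matrix D D ℂ) {u : Matrix ι ι A} (hu : IsUnitaryCorep u) (p q : ι) (i j : D) :
    conjRep hs L (u p q) i j = starRingEnd ℂ (L (u q p) i j) := by
  rw [conjRep_apply, hu.antipode_eq, star_star]

theorem conjRep_one (hs : ∀ (c : ℂ) (a : A), star (c • a) = (starRingEnd ℂ c) • star a)
    (L : A →ₗ[ℂ] Matrix D D ℂ) (h1 : L 1 = 1) : conjRep hs L 1 = 1 := by
  ext i j
  rw [conjRep_apply, HopfAlgebra.antipode_one, star_one, h1, Matrix.one_apply]
  split_ifs <;> simp

theorem conjRep_mul (hA : IsCQG A)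
    (L : A →ₗ[ℂ] Matrix D D ℂ) (hL : ∀ a b, L (a * b) = L a * L b) (a b : A) :
    conjRep hA.star_smul L (a * b) = conjRep hA.star_smul L a * conjRep hA.star_smul L b := by
  refine hA.induction (p := fun a => conjRep hA.star_smul L (a * b)
    = conjRep hA.star_smul L a * conjRep hA.star_smul L b) ?_ ?_ ?_ ?_ a
  · rintro _ ⟨ι, i1, i2, u, hu, i, j, rfl⟩
    refine hA.induction (p := fun b => conjRep hA.star_smul L (u i j * b)
      = conjRep hA.star_smul L (u i j) * conjRep hA.star_smul L b) ?_ ?_ ?_ ?_ b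
    · rintro _ ⟨κ, i3, i4, v, hv, k, l, rfl⟩
      ext p q
      have h1 := conjRep_corep hA.star_smul L (hu.tens hv) (i, k) (j, l) p q
      rw [tens_apply, tens_apply] at h1
      rw [h1, Matrix.mul_apply]
      simp only [conjRep_corep hA.star_smul L hu, conjRep_corep hA.star_smul L hv, hL,
        Matrix.mul_apply, map_sum, map_mul]
    · simp
    · intro a b ha hb
      rw [mul_add, map_add, map_add, ha, hb, Matrix.mul_add]
    · intro c a ha
      rw [mul_smul_comm, map_smul, map_smul, ha, Matrix.mul_smul]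
  · simp
  · intro a b ha hb
    rw [add_mul, map_add, map_add, ha, hb, Matrix.add_mul]
  · intro c a ha
    rw [smul_mul_assoc, map_smul, map_smul, ha, Matrix.smul_mul]

/-- Entries of a *-representation which is bounded form an admissible corepresentation. -/
theorem isAdmissible_of_rep (hA : IsCQG A) {d : ℕ} (L : A →ₗ[ℂ] Matrix (Fin d) (Fin d) ℂ)
    (h1 : L 1 = 1) (hL : ∀ a b, L (a * b) = L a * L b) (hb : ∀ p q, IsBdd (ent L p q))
    (hstar : ∀ a, L (star a) = (L a)ᴴ) :
    IsAdmissible (Matrix.of fun i j => ent L i j) := by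
  obtain ⟨B, hB, hBs⟩ := exists_unitarization hA (conjRep hA.star_smul L)
    (conjRep_one _ _ h1) (conjRep_mul hA L hL) (fun p q => by
      rw [ent_conjRep]; exact (hb p q).starF hA.star_smul)
  have hdet := (Matrix.isUnit_iff_isUnit_det _).mp hB
  have hBB : B * B⁻¹ = 1 := Matrix.mul_nonsing_inv _ hdet
  have hBB' : B⁻¹ * B = 1 := Matrix.nonsing_inv_mul _ hdet
  have hBH : (B⁻¹)ᴴ * Bᴴ = 1 := by
    rw [← Matrix.conjTranspose_mul, hBB, Matrix.conjTranspose_one]
  have hBH' : Bᴴ * (B⁻¹)ᴴ = 1 := by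
    rw [← Matrix.conjTranspose_mul, hBB', Matrix.conjTranspose_one]
  set P := conjRep hA.star_smul L with hP
  have hPb : ∀ p q, IsBdd (ent P p q) := fun p q => by
    rw [hP, ent_conjRep]; exact (hb p q).starF hA.star_smul
  have hmul' : ∀ a b, B * P (a * b) * B⁻¹ = (B * P a * B⁻¹) * (B * P b * B⁻¹) := by
    intro a b
    rw [hP, conjRep_mul hA L hL, ← hP]
    calc B * (P a * P b) * B⁻¹ = B * P a * 1 * P b * B⁻¹ := by
          simp only [Matrix.mul_assoc, Matrix.mul_one, Matrix.one_mul]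
      _ = _ := by rw [← hBB']; simp only [Matrix.mul_assoc]
  refine ⟨hb, ?_, ⟨Matrix.of fun i j => starF hA.star_smul (ent L j i), fun i j a => rfl, ?_, ?_⟩,
    ⟨Matrix.of fun i j => ent (sandwich (Bᴴ * B) (B⁻¹ * (B⁻¹)ᴴ) P) i j,
      fun i j => isBdd_sandwich hPb i j, ?_, ?_⟩⟩
  · intro i j a b
    simp only [Matrix.of_apply, ent_apply]
    rw [hL, Matrix.mul_apply]
  · intro i j
    apply ext_entries hA
    intro ι _ _ u hu p q
    rw [LinearMap.sum_apply]
    have e1 : ∀ k, conv ((Matrix.of fun i j => ent L i j) i k)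
        ((Matrix.of fun i j => starF hA.star_smul (ent L j i)) k j) (u p q)
        = ∑ r, L (u p r) i k * starRingEnd ℂ (L (u q r) j k) := by
      intro k
      rw [conv_corep _ _ hu]
      simp only [Matrix.of_apply, ent_apply, starF_corep _ _ hu]
    simp only [e1]
    rw [Finset.sum_comm]
    have e2 : ∀ r, ∑ k, L (u p r) i k * starRingEnd ℂ (L (u q r) j k)
        = (L (u p r * star (u q r))) i j := by
      intro r
      rw [hL, hstar, Matrix.mul_apply]
      rfl
    simp only [e2]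
    rw [← Matrix.sum_apply, ← map_sum, hu.sum_mul_star]
    by_cases hpq : p = q
    · subst hpq
      rw [if_pos rfl, h1, Matrix.one_apply]
      split_ifs
      · rw [hu.counit_eq, if_pos rfl]
      · simp
    · rw [if_neg hpq, map_zero, Matrix.zero_apply]
      split_ifs
      · rw [hu.counit_eq, if_neg hpq]
      · simp
  · intro i j
    apply ext_entries hA
    intro ι _ _ u hu p q
    rw [LinearMap.sum_apply]
    have e1 : ∀ k, conv ((Matrix.of fun i j => starF hA.star_smul (ent L j i)) i k)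
        ((Matrix.of fun i j => ent L i j) k j) (u p q)
        = ∑ r, starRingEnd ℂ (L (u r p) k i) * L (u r q) k j := by
      intro k
      rw [conv_corep _ _ hu]
      simp only [Matrix.of_apply, ent_apply, starF_corep _ _ hu]
    simp only [e1]
    rw [Finset.sum_comm]
    have e2 : ∀ r, ∑ k, starRingEnd ℂ (L (u r p) k i) * L (u r q) k j
        = (L (star (u r p) * u r q)) i j := by
      intro r
      rw [hL, hstar, Matrix.mul_apply]
      rfl
    simp only [e2]
    rw [← Matrix.sum_apply, ← map_sum, hu.sum_star_mul]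
    by_cases hpq : p = q
    · subst hpq
      rw [if_pos rfl, h1, Matrix.one_apply]
      split_ifs
      · rw [hu.counit_eq, if_pos rfl]
      · simp
    · rw [if_neg hpq, map_zero, Matrix.zero_apply]
      split_ifs
      · rw [hu.counit_eq, if_neg hpq]
      · simp
  · intro i j
    apply ext_entries hA
    intro ι _ _ u hu p q
    rw [LinearMap.sum_apply]
    have e1 : ∀ k, conv ((Matrix.of fun i j => ent L i j)ᵀ i k)
        ((Matrix.of fun i j => ent (sandwich (Bᴴ * B) (B⁻¹ * (B⁻¹)ᴴ) P) i j) k j) (u p q)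
        = ∑ r, (P (u r p))ᴴ i k * (Bᴴ * B * P (u r q) * (B⁻¹ * (B⁻¹)ᴴ)) k j := by
      intro k
      rw [conv_corep _ _ hu]
      refine Finset.sum_congr rfl fun r _ => ?_
      rw [Matrix.conjTranspose_apply, hP, conjRep_corep _ _ hu, ← hP]
      simp [Matrix.transpose_apply, ent_apply, sandwich_apply]
    simp only [e1]
    rw [Finset.sum_comm]
    have e2 : ∀ r, ∑ k, (P (u r p))ᴴ i k * (Bᴴ * B * P (u r q) * (B⁻¹ * (B⁻¹)ᴴ)) k j
        = (Bᴴ * (B * P (star (u r p) * u r q) * B⁻¹) * (B⁻¹)ᴴ) i j := by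
      intro r
      rw [hmul', hBs, ← Matrix.mul_apply]
      refine congrFun (congrFun ?_ i) j
      rw [Matrix.conjTranspose_mul, Matrix.conjTranspose_mul]
      calc (P (u r p))ᴴ * (Bᴴ * B * P (u r q) * (B⁻¹ * (B⁻¹)ᴴ))
          = 1 * (P (u r p))ᴴ * (Bᴴ * B * P (u r q) * (B⁻¹ * (B⁻¹)ᴴ)) := by rw [Matrix.one_mul]
        _ = _ := by rw [← hBH']; simp only [Matrix.mul_assoc]
    simp only [e2]
    rw [← Matrix.sum_apply, ← Matrix.sum_mul, ← Matrix.mul_sum, ← Matrix.sum_mul,
      ← Matrix.mul_sum, ← map_sum, hu.sum_star_mul]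
    by_cases hpq : p = q
    · subst hpq
      rw [if_pos rfl, hP, conjRep_one _ _ h1, Matrix.mul_one, hBB, Matrix.mul_one, hBH',
        Matrix.one_apply]
      split_ifs
      · rw [hu.counit_eq, if_pos rfl]
      · simp
    · rw [if_neg hpq, map_zero]
      split_ifs
      · rw [hu.counit_eq, if_neg hpq]; simp
      · simp
  · intro i j
    apply ext_entries hA
    intro ι _ _ u hu p q
    rw [LinearMap.sum_apply]
    have e1 : ∀ k, conv ((Matrix.of fun i j => ent (sandwich (Bᴴ * B) (B⁻¹ * (B⁻¹)ᴴ) P) i j) i k)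
        ((Matrix.of fun i j => ent L i j)ᵀ k j) (u p q)
        = ∑ r, (Bᴴ * B * P (u p r) * (B⁻¹ * (B⁻¹)ᴴ)) i k * (P (u q r))ᴴ k j := by
      intro k
      rw [conv_corep _ _ hu]
      refine Finset.sum_congr rfl fun r _ => ?_
      rw [Matrix.conjTranspose_apply, hP, conjRep_corep _ _ hu, ← hP]
      simp [Matrix.transpose_apply, ent_apply, sandwich_apply]
    simp only [e1]
    rw [Finset.sum_comm]
    have e2 : ∀ r, ∑ k, (Bᴴ * B * P (u p r) * (B⁻¹ * (B⁻¹)ᴴ)) i k * (P (u q r))ᴴ k j
        = (Bᴴ * (B * P (u p r * star (u q r)) * B⁻¹) * (B⁻¹)ᴴ) i j := by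
      intro r
      rw [hmul', hBs, ← Matrix.mul_apply]
      refine congrFun (congrFun ?_ i) j
      rw [Matrix.conjTranspose_mul, Matrix.conjTranspose_mul]
      calc (Bᴴ * B * P (u p r) * (B⁻¹ * (B⁻¹)ᴴ)) * (P (u q r))ᴴ
          = (Bᴴ * B * P (u p r) * (B⁻¹ * (B⁻¹)ᴴ)) * ((P (u q r))ᴴ * 1) := by rw [Matrix.mul_one]
        _ = _ := by rw [← hBH']; simp only [Matrix.mul_assoc]
    simp only [e2]
    rw [← Matrix.sum_apply, ← Matrix.sum_mul, ← Matrix.mul_sum, ← Matrix.sum_mul,
      ← Matrix.mul_sum, ← map_sum, hu.sum_mul_star]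
    by_cases hpq : p = q
    · subst hpq
      rw [if_pos rfl, hP, conjRep_one _ _ h1, Matrix.mul_one, hBB, Matrix.mul_one, hBH',
        Matrix.one_apply]
      split_ifs
      · rw [hu.counit_eq, if_pos rfl]
      · simp
    · rw [if_neg hpq, map_zero]
      split_ifs
      · rw [hu.counit_eq, if_neg hpq]; simp
      · simp

/-! ### From periodic elements to representations -/

theorem exists_rep (hA : IsCQG A) {x : A →ₗ[ℂ] ℂ} (hx : IsPeriodic x) :
    ∃ (d : ℕ) (L : A →ₗ[ℂ] Matrix (Fin d) (Fin d) ℂ), L 1 = 1 ∧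
      (∀ a b, L (a * b) = L a * L b) ∧ (∀ p q, IsBdd (ent L p q)) ∧
      ∃ c : Fin d → Fin d → ℂ, x = ∑ i, ∑ j, c i j • ent L i j := by
  obtain ⟨-, n, y, z, -, hz, hxyz⟩ := hx
  set V : Submodule ℂ (A →ₗ[ℂ] ℂ) := Submodule.span ℂ (Set.range (leftT x)) with hV
  have hVz : V ≤ Submodule.span ℂ (Set.range z) := by
    rw [hV, Submodule.span_le]
    rintro _ ⟨a, rfl⟩
    have : leftT x a = ∑ i, y i a • z i := by
      ext b
      simp [leftT_apply, hxyz]
    rw [this]
    exact Submodule.sum_mem _ fun i _ => Submodule.smul_mem _ _ (Submodule.subset_span ⟨i, rfl⟩)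
  have : FiniteDimensional ℂ (Submodule.span ℂ (Set.range z)) :=
    FiniteDimensional.span_of_finite ℂ (Set.finite_range z)
  have : FiniteDimensional ℂ V := Submodule.finiteDimensional_of_le hVz
  have hVb' : ∀ w ∈ Submodule.span ℂ (Set.range z), IsBdd w := by
    intro w hw
    induction hw using Submodule.span_induction with
    | mem w hw => obtain ⟨i, rfl⟩ := hw; exact hz i
    | zero => exact isBdd_zero
    | add a b _ _ ha hb => exact ha.add hb
    | smul c a _ ha => exact ha.smul c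
  have hVb : ∀ w ∈ V, IsBdd w := fun w hw => hVb' w (hVz hw)
  have hVinv : ∀ w ∈ V, ∀ a, leftT w a ∈ V := by
    intro w hw a
    induction hw using Submodule.span_induction with
    | mem w hw =>
      obtain ⟨b, rfl⟩ := hw
      have : leftT (leftT x b) a = leftT x (b * a) := by
        ext c; simp [leftT_apply, mul_assoc]
      rw [this]
      exact Submodule.subset_span ⟨b * a, rfl⟩
    | zero =>
      have : leftT (0 : A →ₗ[ℂ] ℂ) a = 0 := by ext c; simp [leftT_apply]
      rw [this]; exact Submodule.zero_mem _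
    | add v w _ _ hv hw =>
      have : leftT (v + w) a = leftT v a + leftT w a := by ext c; simp [leftT_apply]
      rw [this]; exact Submodule.add_mem _ hv hw
    | smul c w _ hw =>
      have : leftT (c • w) a = c • leftT w a := by ext c; simp [leftT_apply]
      rw [this]; exact Submodule.smul_mem _ _ hw
  set f := Module.finBasis ℂ V with hf
  set d := Module.finrank ℂ V with hd
  have hpt : ∀ j : Fin d, ∃ b : A, ∀ w : V, f.coord j w = w.1 b := fun j =>
    exists_point V (f.coord j)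
  choose b hb using hpt
  have hexp : ∀ w ∈ V, ∀ c, w c = ∑ j, w (b j) * (f j).1 c := by
    intro w hw c
    have h1 := f.sum_repr ⟨w, hw⟩
    have h2 := congrArg (fun v : V => v.1 c) h1
    simp only at h2
    rw [← h2]
    rw [AddSubmonoidClass.coe_finset_sum, LinearMap.sum_apply]
    refine Finset.sum_congr rfl fun j _ => ?_
    have h3 := hb j ⟨w, hw⟩
    rw [Module.Basis.coord_apply] at h3
    simp only [h3, Submodule.coe_smul, LinearMap.smul_apply, smul_eq_mul]
  set L : A →ₗ[ℂ] Matrix (Fin d) (Fin d) ℂ :=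
    { toFun := fun a => Matrix.of fun i j => (f i).1 (a * b j)
      map_add' := fun a a' => by ext i j; simp [add_mul]
      map_smul' := fun c a => by ext i j; simp } with hL
  have hLa : ∀ a i j, L a i j = (f i).1 (a * b j) := fun _ _ _ => rfl
  have hLf : ∀ i a c, (f i).1 (a * c) = ∑ j, L a i j * (f j).1 c := by
    intro i a c
    have := hexp (leftT (f i).1 a) (hVinv _ (f i).2 a) c
    rw [leftT_apply] at this
    rw [this]
    rfl
  refine ⟨d, L, ?_, ?_, ?_, ?_⟩
  · ext i j
    rw [hLa, one_mul, ← hb j (f i), Module.Basis.coord_apply, Module.Basis.repr_self,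
      Matrix.one_apply, Finsupp.single_apply]
  · intro a a'
    ext i k
    rw [hLa, mul_assoc, hLf, Matrix.mul_apply]
    rfl
  · intro p q
    have : ent L p q = rightT (f p).1 (b q) := by ext a; rfl
    rw [this]
    exact (hVb _ (f p).2).rightT hA (b q)
  · refine ⟨fun i j => x (b i) * (f j).1 1, ?_⟩
    have hxV : x ∈ V := by
      have : x = leftT x 1 := by ext c; simp [leftT_apply]
      rw [this]
      exact Submodule.subset_span ⟨1, rfl⟩
    ext a
    rw [hexp x hxV a]
    simp only [LinearMap.sum_apply, LinearMap.smul_apply, smul_eq_mul, ent_apply]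
    refine Finset.sum_congr rfl fun i _ => ?_
    have h1 := hLf i a 1
    rw [mul_one] at h1
    rw [h1, Finset.mul_sum]
    refine Finset.sum_congr rfl fun j _ => ?_
    ring

/-- Almost periodic elements. -/
theorem periodic_le (hA : IsCQG A) {x : A →ₗ[ℂ] ℂ} (hx : IsPeriodic x) :
    x ∈ Submodule.span ℂ {x : A →ₗ[ℂ] ℂ |
      ∃ (d : ℕ) (U : Matrix (Fin d) (Fin d) (A →ₗ[ℂ] ℂ)), IsAdmissible U ∧ ∃ i j, x = U i j} := by
  obtain ⟨d, L, h1, hL, hb, c, hc⟩ := exists_rep hA hx
  obtain ⟨B, hB, hBs⟩ := exists_unitarization hA L h1 hL hb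
  have hdet := (Matrix.isUnit_iff_isUnit_det _).mp hB
  have hBB : B * B⁻¹ = 1 := Matrix.mul_nonsing_inv _ hdet
  have hBB' : B⁻¹ * B = 1 := Matrix.nonsing_inv_mul _ hdet
  have hadm := isAdmissible_of_rep hA (sandwich B B⁻¹ L)
    (by rw [sandwich_apply, h1, Matrix.mul_one, hBB])
    (by
      intro a b
      rw [sandwich_apply, sandwich_apply, sandwich_apply, hL]
      calc B * (L a * L b) * B⁻¹ = B * L a * 1 * L b * B⁻¹ := by
            simp only [Matrix.mul_assoc, Matrix.one_mul]
        _ = _ := by rw [← hBB']; simp only [Matrix.mul_assoc])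
    (fun p q => isBdd_sandwich hb p q)
    (fun a => by rw [sandwich_apply, sandwich_apply, hBs])
  have hback : L = sandwich B⁻¹ B (sandwich B B⁻¹ L) := by
    apply LinearMap.ext
    intro a
    rw [sandwich_apply, sandwich_apply]
    calc L a = 1 * L a * 1 := by rw [Matrix.one_mul, Matrix.mul_one]
      _ = _ := by rw [← hBB']; simp only [Matrix.mul_assoc]
  rw [hc]
  refine Submodule.sum_mem _ fun i _ => Submodule.sum_mem _ fun j _ => Submodule.smul_mem _ _ ?_
  rw [hback, ent_sandwich]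
  refine Submodule.sum_mem _ fun q _ => Submodule.sum_mem _ fun p _ => Submodule.smul_mem _ _ ?_
  exact Submodule.subset_span ⟨d, _, hadm, p, q, rfl⟩

theorem isPeriodic_of {x : A →ₗ[ℂ] ℂ} (hx : IsBdd x) {σ : Type*} [Fintype σ]
    (y z : σ → A →ₗ[ℂ] ℂ) (hy : ∀ i, IsBdd (y i)) (hz : ∀ i, IsBdd (z i))
    (h : ∀ a b, x (a * b) = ∑ i, y i a * z i b) : IsPeriodic x := by
  refine ⟨hx, Fintype.card σ, fun i => y ((Fintype.equivFin σ).symm i),
    fun i => z ((Fintype.equivFin σ).symm i), fun i => hy _, fun i => hz _, fun a b => ?_⟩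
  rw [h a b, ← (Fintype.equivFin σ).symm.sum_comp]

theorem isPeriodic_zero : IsPeriodic (0 : A →ₗ[ℂ] ℂ) :=
  isPeriodic_of isBdd_zero (σ := Fin 0) (fun _ => 0) (fun _ => 0) (fun _ => isBdd_zero)
    (fun _ => isBdd_zero) (by simp)

theorem IsPeriodic.add {x y : A →ₗ[ℂ] ℂ} (hx : IsPeriodic x) (hy : IsPeriodic y) :
    IsPeriodic (x + y) := by
  obtain ⟨hxb, n, p, q, hp, hq, h⟩ := hx
  obtain ⟨hyb, m, r, s, hr, hs, h'⟩ := hy
  refine isPeriodic_of (hxb.add hyb) (σ := Fin n ⊕ Fin m) (Sum.elim p r) (Sum.elim q s) ?_ ?_ ?_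
  · rintro (i | i)
    · exact hp i
    · exact hr i
  · rintro (i | i)
    · exact hq i
    · exact hs i
  · intro a b
    rw [Fintype.sum_sum_type, LinearMap.add_apply, h, h']
    rfl

theorem IsPeriodic.smul {x : A →ₗ[ℂ] ℂ} (hx : IsPeriodic x) (c : ℂ) : IsPeriodic (c • x) := by
  obtain ⟨hxb, n, p, q, hp, hq, h⟩ := hx
  refine isPeriodic_of (hxb.smul c) (fun i => c • p i) q (fun i => (hp i).smul c) hq ?_
  intro a b
  rw [LinearMap.smul_apply, h, Finset.smul_sum]
  refine Finset.sum_congr rfl fun i _ => ?_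
  simp [mul_assoc]

theorem le_periodic {x : A →ₗ[ℂ] ℂ} (hx : x ∈ Submodule.span ℂ {x : A →ₗ[ℂ] ℂ |
      ∃ (d : ℕ) (U : Matrix (Fin d) (Fin d) (A →ₗ[ℂ] ℂ)), IsAdmissible U ∧ ∃ i j, x = U i j}) :
    IsPeriodic x := by
  induction hx using Submodule.span_induction with
  | mem x hx =>
    obtain ⟨d, U, hU, i, j, rfl⟩ := hx
    exact ⟨hU.1 i j, d, fun k => U i k, fun k => U k j, fun k => hU.1 _ _, fun k => hU.1 _ _,
      hU.2.1 i j⟩
  | zero => exact isPeriodic_zero
  | add x y _ _ hx hy => exact hx.add hy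
  | smul c x _ hx => exact hx.smul c

end

end Pool.Agent.DQG
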