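import Pool.Agent.DQG.Fix

open scoped TensorProduct Matrix.Norms.L2Operator ComplexOrder MatrixOrder Kronecker
open Coalgebra HopfAlgebra Matrix

namespace Pool.Agent.DQG

universe u

section
variable {A : Type u} [Ring A] [StarRing A] [HopfAlgebra ℂ A]
variable {ι κ : Type} [Fintype ι] [DecidableEq ι] [Fintype κ] [DecidableEq κ]
variable {D : Type} [Fintype D] [DecidableEq D]

/-- Entries of unitary corepresentations. -/
def IsEntry (c : A) : Prop := ∃ (ι : Type) (_ : Fintype ι) (_ : DecidableEq ι)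
    (u : Matrix ι ι A), IsUnitaryCorep u ∧ ∃ i j, c = u i j

theorem IsCQG.induction (hA : IsCQG A) {p : A → Prop} (h0 : ∀ c, IsEntry c → p c)
    (hz : p 0) (hadd : ∀ a b, p a → p b → p (a + b)) (hsm : ∀ (c : ℂ) a, p a → p (c • a)) (a : A) :
    p a := by
  have ha : a ∈ Submodule.span ℂ {c : A | IsEntry c} := by
    have := hA.span
    change Submodule.span ℂ {c : A | IsEntry c} = ⊤ at this
    rw [this]; trivial
  induction ha using Submodule.span_induction with
  | mem c hc => exact h0 c hc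
  | zero => exact hz
  | add a b _ _ ha hb => exact hadd a b ha hb
  | smul c a _ ha => exact hsm c a ha

/-- Finitely many entries can be found in one unitary corepresentation. -/
theorem exists_big (s : Finset A) (hs : ∀ c ∈ s, IsEntry c) :
    ∃ (κ : Type) (_ : Fintype κ) (_ : DecidableEq κ) (v : Matrix κ κ A),
      Nonempty κ ∧ IsUnitaryCorep v ∧ ∀ c ∈ s, ∃ i j, c = v i j := by
  classical
  induction s using Finset.induction_on with
  | empty => exact ⟨Unit, inferInstance, inferInstance, 1, inferInstance, isUnitaryCorep_one,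
      by simp⟩
  | insert a s ha ih =>
    obtain ⟨κ, i1, i2, v, hne, hv, hvs⟩ := ih fun c hc => hs c (Finset.mem_insert_of_mem hc)
    obtain ⟨ι, i3, i4, u, hu, i, j, hij⟩ := hs a (Finset.mem_insert_self _ _)
    refine ⟨κ ⊕ ι, inferInstance, inferInstance, Matrix.fromBlocks v 0 0 u, ?_,
      hv.directSum hu, ?_⟩
    · exact ⟨Sum.inl (Classical.choice hne)⟩
    · intro c hc
      rcases Finset.mem_insert.mp hc with rfl | hc
      · exact ⟨Sum.inr i, Sum.inr j, by simpa using hij⟩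
      · obtain ⟨k, l, hkl⟩ := hvs c hc
        exact ⟨Sum.inl k, Sum.inl l, by simpa using hkl⟩

/-- One unitary corepresentation whose entries span the range of a given linear map of finite
rank. -/
theorem exists_spanning (hA : IsCQG A) {W : Type*} [AddCommGroup W] [Module ℂ W]
    [FiniteDimensional ℂ W] (Φ : A →ₗ[ℂ] W) :
    ∃ (κ : Type) (_ : Fintype κ) (_ : DecidableEq κ) (v : Matrix κ κ A),
      Nonempty κ ∧ IsUnitaryCorep v ∧
      ∀ a, Φ a ∈ Submodule.span ℂ (Set.range fun s : κ × κ => Φ (v s.1 s.2)) := by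
  classical
  have hfg : (Submodule.span ℂ (Φ '' {c : A | IsEntry c})).FG := IsNoetherian.noetherian _
  obtain ⟨t, ht, hts⟩ := (Submodule.fg_span_iff_fg_span_finset_subset _).mp hfg
  choose! g hg using fun w (hw : w ∈ (Φ '' {c : A | IsEntry c})) => hw
  obtain ⟨κ, i1, i2, v, hne, hv, hvs⟩ := exists_big (t.image g) (by
    intro c hc
    obtain ⟨w, hw, rfl⟩ := Finset.mem_image.mp hc
    exact (hg w (ht hw)).1)
  refine ⟨κ, i1, i2, v, hne, hv, ?_⟩
  have h1 : Submodule.span ℂ (t : Set W)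
      ≤ Submodule.span ℂ (Set.range fun s : κ × κ => Φ (v s.1 s.2)) := by
    rw [Submodule.span_le]
    intro w hw
    obtain ⟨i, j, hij⟩ := hvs (g w) (Finset.mem_image_of_mem g hw)
    have h2 := (hg w (ht hw)).2
    rw [← h2, hij]
    exact Submodule.subset_span ⟨(i, j), rfl⟩
  intro a
  apply h1
  rw [← hts]
  refine hA.induction (p := fun a => Φ a ∈ Submodule.span ℂ (Φ '' {c : A | IsEntry c}))
    ?_ ?_ ?_ ?_ a
  · intro c hc
    exact Submodule.subset_span ⟨c, hc, rfl⟩
  · rw [map_zero]; exact Submodule.zero_mem _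
  · intro a b ha hb
    rw [map_add]; exact Submodule.add_mem _ ha hb
  · intro c a ha
    rw [map_smul]; exact Submodule.smul_mem _ _ ha

/-- The right module structure on matrices. -/
noncomputable def RR (hA : IsCQG A) (π : A →ₗ[ℂ] Matrix D D ℂ) :
    A →ₗ[ℂ] Matrix (D × D) (D × D) ℂ where
  toFun a := Matrix.of fun pq rs => conv (starF hA.star_smul (ent π rs.1 pq.1)) (ent π rs.2 pq.2) a
  map_add' a b := by ext; simp
  map_smul' c a := by ext; simp

theorem ent_RR (hA : IsCQG A) (π : A →ₗ[ℂ] Matrix D D ℂ) (pq rs : D × D) :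
    ent (RR hA π) pq rs = conv (starF hA.star_smul (ent π rs.1 pq.1)) (ent π rs.2 pq.2) := by
  ext a; rfl

theorem RR_corep (hA : IsCQG A) (π : A →ₗ[ℂ] Matrix D D ℂ) {u : Matrix ι ι A}
    (hu : IsUnitaryCorep u) (i j : ι) (pq rs : D × D) :
    RR hA π (u i j) pq rs
      = ∑ k, starRingEnd ℂ (π (u k i) rs.1 pq.1) * π (u k j) rs.2 pq.2 := by
  change conv (starF hA.star_smul (ent π rs.1 pq.1)) (ent π rs.2 pq.2) (u i j) = _
  rw [conv_corep _ _ hu]
  simp only [starF_corep _ _ hu, ent_apply]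

theorem RR_one (hA : IsCQG A) (π : A →ₗ[ℂ] Matrix D D ℂ) (h1 : π 1 = 1) : RR hA π 1 = 1 := by
  ext pq rs
  have := RR_corep hA π (isUnitaryCorep_one (A := A)) () () pq rs
  simp only [Matrix.one_apply_eq, Finset.univ_unique, Finset.sum_singleton, h1] at this
  rw [this, Matrix.one_apply, Matrix.one_apply, Matrix.one_apply]
  by_cases e1 : rs.1 = pq.1 <;> by_cases e2 : rs.2 = pq.2
  · rw [if_pos e1, if_pos e2, if_pos (Prod.ext e1.symm e2.symm)]; simp
  · rw [if_pos e1, if_neg e2, if_neg (fun h => e2 (congrArg Prod.snd h).symm)]; simp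
  · rw [if_neg e1, if_neg (fun h => e1 (congrArg Prod.fst h).symm)]; simp
  · rw [if_neg e1, if_neg (fun h => e1 (congrArg Prod.fst h).symm)]; simp

theorem RR_anti (hA : IsCQG A) (π : A →ₗ[ℂ] Matrix D D ℂ) (hπ : ∀ a b, π (a * b) = π a * π b)
    (a b : A) : RR hA π (a * b) = RR hA π b * RR hA π a := by
  refine hA.induction (p := fun a => RR hA π (a * b) = RR hA π b * RR hA π a) ?_ ?_ ?_ ?_ a
  · rintro _ ⟨ι, i1, i2, u, hu, i, j, rfl⟩
    refine hA.induction (p := fun b => RR hA π (u i j * b) = RR hA π b * RR hA π (u i j))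
      ?_ ?_ ?_ ?_ b
    · rintro _ ⟨κ, i3, i4, v, hv, k, l, rfl⟩
      ext pq rs
      have h1 := RR_corep hA π (hu.tens hv) (i, k) (j, l) pq rs
      rw [tens_apply] at h1
      rw [h1, Matrix.mul_apply]
      simp only [RR_corep hA π hv, RR_corep hA π hu, tens_apply, hπ, Matrix.mul_apply,
        Fintype.sum_prod_type, map_sum, map_mul]
      have e1 : ∀ t t', (∑ b, starRingEnd ℂ (π (v b k) t pq.1) * π (v b l) t' pq.2) *
          (∑ a, starRingEnd ℂ (π (u a i) rs.1 t) * π (u a j) rs.2 t')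
          = ∑ a, ∑ b, (starRingEnd ℂ (π (u a i) rs.1 t) * starRingEnd ℂ (π (v b k) t pq.1)) *
            (π (u a j) rs.2 t' * π (v b l) t' pq.2) := by
        intro t t'
        rw [Finset.sum_mul_sum, Finset.sum_comm]
        exact Finset.sum_congr rfl fun _ _ => Finset.sum_congr rfl fun _ _ => by ring
      simp only [e1, Finset.sum_mul_sum]
      have e2 : ∀ t, ∑ t', ∑ a, ∑ b, (starRingEnd ℂ (π (u a i) rs.1 t) *
          starRingEnd ℂ (π (v b k) t pq.1)) * (π (u a j) rs.2 t' * π (v b l) t' pq.2)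
          = ∑ a, ∑ b, ∑ t', (starRingEnd ℂ (π (u a i) rs.1 t) *
          starRingEnd ℂ (π (v b k) t pq.1)) * (π (u a j) rs.2 t' * π (v b l) t' pq.2) := by
        intro t
        rw [Finset.sum_comm]
        exact Finset.sum_congr rfl fun _ _ => Finset.sum_comm
      simp only [e2]
      symm
      rw [Finset.sum_comm]
      exact Finset.sum_congr rfl fun _ _ => Finset.sum_comm
    · simp
    · intro a b ha hb
      rw [mul_add, map_add, map_add, ha, hb, Matrix.add_mul]
    · intro c a ha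
      rw [mul_smul_comm, map_smul, map_smul, ha, Matrix.smul_mul]
  · simp
  · intro a b ha hb
    rw [add_mul, map_add, map_add, ha, hb, Matrix.mul_add]
  · intro c a ha
    rw [smul_mul_assoc, map_smul, map_smul, ha, Matrix.mul_smul]

theorem RR_mulVec (hA : IsCQG A) (π : A →ₗ[ℂ] Matrix D D ℂ) {u : Matrix ι ι A}
    (hu : IsUnitaryCorep u) (i j : ι) (T : Matrix D D ℂ) (pq : D × D) :
    (RR hA π (u i j) *ᵥ fun rs => T rs.1 rs.2) pq
      = (∑ k, (π (u k i))ᴴ * T * π (u k j)) pq.1 pq.2 := by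
  rw [Matrix.sum_apply]
  simp only [Matrix.mulVec, dotProduct, RR_corep hA π hu, Fintype.sum_prod_type,
    Matrix.mul_apply, Matrix.conjTranspose_apply, Finset.sum_mul]
  have e1 : ∀ r, ∑ s, ∑ k, starRingEnd ℂ (π (u k i) r pq.1) * π (u k j) s pq.2 * T r s
      = ∑ k, ∑ s, starRingEnd ℂ (π (u k i) r pq.1) * π (u k j) s pq.2 * T r s :=
    fun r => Finset.sum_comm
  simp only [e1]
  rw [Finset.sum_comm]
  refine Finset.sum_congr rfl fun k _ => ?_
  rw [Finset.sum_comm]
  refine Finset.sum_congr rfl fun s _ => Finset.sum_congr rfl fun r _ => ?_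
  rw [Complex.star_def]
  ring

/-- The invariant positive definite matrix. -/
theorem exists_invariant (hA : IsCQG A) (π : A →ₗ[ℂ] Matrix D D ℂ) (h1 : π 1 = 1)
    (hπ : ∀ a b, π (a * b) = π a * π b) (hb : ∀ p q, IsBdd (ent π p q)) :
    ∃ T : Matrix D D ℂ, T.PosDef ∧ ∀ (ι : Type) [Fintype ι] [DecidableEq ι] (u : Matrix ι ι A),
      IsUnitaryCorep u → ∀ i j, ∑ k, (π (u k i))ᴴ * T * π (u k j) = if i = j then T else 0 := by
  set R := RR hA π with hR
  set Φ : A →ₗ[ℂ] (Matrix D D ℂ × Matrix (D × D) (D × D) ℂ) × ℂ :=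
    (π.prod R).prod (counit (R := ℂ)) with hΦ
  obtain ⟨κ, _, _, v, hne, hv, hspan⟩ := exists_spanning hA Φ
  obtain ⟨G, hG⟩ := exists_good hA hv
  have hlin : ∀ {W : Type} [AddCommGroup W] [Module ℂ W]
      (f : (Matrix D D ℂ × Matrix (D × D) (D × D) ℂ) × ℂ →ₗ[ℂ] W) (a : A),
      f (Φ a) ∈ Submodule.span ℂ (Set.range fun s : κ × κ => f (Φ (v s.1 s.2))) := by
    intro W _ _ f a
    have h2 := Submodule.mem_map_of_mem (f := f) (hspan a)
    rw [Submodule.map_span, ← Set.range_comp] at h2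
    exact h2
  obtain ⟨T, hT, hFT⟩ := exists_posDef_fixed hA π h1 (Or.inl hπ) hb hG
    (fun a => hlin (LinearMap.fst ℂ _ _ ∘ₗ LinearMap.fst ℂ _ _) a)
  have hbR : ∀ p q, IsBdd (ent R p q) := by
    intro p q
    rw [hR, ent_RR]
    exact ((hb _ _).starF hA.star_smul).conv (hb _ _)
  obtain ⟨P, hP, hFP⟩ := exists_posDef_fixed hA R (RR_one hA π h1) (Or.inr (RR_anti hA π hπ))
    hbR hG (fun a => hlin (LinearMap.snd ℂ _ _ ∘ₗ LinearMap.fst ℂ _ _) a)
  set e : D × D → ℂ := fun rs => T rs.1 rs.2 with he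
  have hee : ∑ i, ∑ j, G i j • (R (v i j) *ᵥ e) = e := by
    funext pq
    have h3 := congrFun (congrFun hFT pq.1) pq.2
    rw [FF_apply, Matrix.sum_apply] at h3
    rw [Finset.sum_apply, he]
    simp only
    rw [← h3]
    refine Finset.sum_congr rfl fun i _ => ?_
    rw [Finset.sum_apply, Matrix.sum_apply]
    refine Finset.sum_congr rfl fun j _ => ?_
    rw [Pi.smul_apply, Matrix.smul_apply, hR, RR_mulVec hA π hv]
  have hfix := fixed_invariant hA R hG hP hFP e hee
  have hall : ∀ a, R a *ᵥ e = counit (R := ℂ) a • e := by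
    intro a
    have h4 := hspan a
    have h5 : ∀ w ∈ Submodule.span ℂ (Set.range fun s : κ × κ => Φ (v s.1 s.2)),
        w.1.2 *ᵥ e = w.2 • e := by
      intro w hw
      induction hw using Submodule.span_induction with
      | mem w hw =>
        obtain ⟨s, rfl⟩ := hw
        have h6 := hfix s.1 s.2
        change R (v s.1 s.2) *ᵥ e = counit (R := ℂ) (v s.1 s.2) • e
        rw [h6, hv.counit_eq]
        split_ifs <;> simp
      | zero => simp
      | add x y _ _ hx hy =>
        simp only [Prod.snd_add, Prod.fst_add, Matrix.add_mulVec, hx, hy, add_smul]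
      | smul c x _ hx =>
        simp only [Prod.smul_snd, Prod.smul_fst, Matrix.smul_mulVec, hx, smul_smul, smul_eq_mul]
    exact h5 _ h4
  refine ⟨T, hT, fun ι _ _ u hu i j => ?_⟩
  ext p q
  have h7 := RR_mulVec hA π hu i j T (p, q)
  rw [← h7]
  have h8 := congrFun (hall (u i j)) (p, q)
  rw [← hR, h8, hu.counit_eq]
  split_ifs <;> simp [he]

/-- A bounded finite-dimensional representation of `A` is similar to a *-representation. -/
theorem exists_unitarization (hA : IsCQG A) (π : A →ₗ[ℂ] Matrix D D ℂ) (h1 : π 1 = 1)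
    (hπ : ∀ a b, π (a * b) = π a * π b) (hb : ∀ p q, IsBdd (ent π p q)) :
    ∃ B : Matrix D D ℂ, IsUnit B ∧ ∀ a, B * π (star a) * B⁻¹ = (B * π a * B⁻¹)ᴴ := by
  obtain ⟨T, hT, hinv⟩ := exists_invariant hA π h1 hπ hb
  obtain ⟨B, hB⟩ : ∃ B : Matrix D D ℂ, T = Bᴴ * B := by
    have := hT.posSemidef
    rw [← Matrix.nonneg_iff_posSemidef] at this
    exact CStarAlgebra.nonneg_iff_eq_star_mul_self.mp this
  have hBu : IsUnit B := by
    have h1 : IsUnit T := hT.isUnit
    rw [hB] at h1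
    rw [Matrix.isUnit_iff_isUnit_det] at h1 ⊢
    rw [Matrix.det_mul] at h1
    exact isUnit_of_mul_isUnit_right h1
  have hdet := (Matrix.isUnit_iff_isUnit_det _).mp hBu
  have hBB : B * B⁻¹ = 1 := Matrix.mul_nonsing_inv _ hdet
  have hBB' : B⁻¹ * B = 1 := Matrix.nonsing_inv_mul _ hdet
  have hBH : (B⁻¹)ᴴ * Bᴴ = 1 := by
    rw [← Matrix.conjTranspose_mul, hBB, Matrix.conjTranspose_one]
  refine ⟨B, hBu, ?_⟩
  have hmul' : ∀ a b, B * π (a * b) * B⁻¹ = (B * π a * B⁻¹) * (B * π b * B⁻¹) := by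
    intro a b
    rw [hπ]
    calc B * (π a * π b) * B⁻¹ = B * π a * 1 * π b * B⁻¹ := by
          simp only [Matrix.mul_assoc, Matrix.mul_one, Matrix.one_mul]
      _ = _ := by rw [← hBB']; simp only [Matrix.mul_assoc]
  refine hA.induction ?_ ?_ ?_ ?_
  · rintro _ ⟨ι, i1, i2, u, hu, i0, j0, rfl⟩
    -- matrices over matrices
    have hY : ∀ i j, ∑ k, (B * π (u k i) * B⁻¹)ᴴ * (B * π (u k j) * B⁻¹)
        = if i = j then 1 else 0 := by
      intro i j
      have h2 := hinv ι u hu i j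
      have h3 : ∀ k, (B * π (u k i) * B⁻¹)ᴴ * (B * π (u k j) * B⁻¹)
          = (B⁻¹)ᴴ * ((π (u k i))ᴴ * T * π (u k j)) * B⁻¹ := by
        intro k
        rw [hB, Matrix.conjTranspose_mul, Matrix.conjTranspose_mul]
        simp only [Matrix.mul_assoc]
      simp only [h3, ← Matrix.mul_sum, ← Matrix.sum_mul, h2]
      split_ifs
      · rw [hB]
        calc (B⁻¹)ᴴ * (Bᴴ * B) * B⁻¹ = ((B⁻¹)ᴴ * Bᴴ) * (B * B⁻¹) := by
              simp only [Matrix.mul_assoc]
          _ = 1 := by rw [hBH, hBB, Matrix.mul_one]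
      · simp
    have hZ : ∀ i j, ∑ k, (B * π (u i k) * B⁻¹) * (B * π (star (u j k)) * B⁻¹)
        = if i = j then 1 else 0 := by
      intro i j
      simp only [← hmul']
      rw [← Matrix.sum_mul, ← Matrix.mul_sum, ← map_sum, hu.sum_mul_star]
      split_ifs
      · rw [h1, Matrix.mul_one, hBB]
      · simp
    symm
    calc (B * π (u i0 j0) * B⁻¹)ᴴ
        = ∑ k, (B * π (u k j0) * B⁻¹)ᴴ * (if k = i0 then 1 else 0) := by simp
      _ = ∑ k, (B * π (u k j0) * B⁻¹)ᴴ *
            ∑ l, (B * π (u k l) * B⁻¹) * (B * π (star (u i0 l)) * B⁻¹) := by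
          simp only [hZ]
      _ = ∑ l, (∑ k, (B * π (u k j0) * B⁻¹)ᴴ * (B * π (u k l) * B⁻¹)) *
            (B * π (star (u i0 l)) * B⁻¹) := by
          simp only [Finset.mul_sum, Finset.sum_mul, Matrix.mul_assoc]
          exact Finset.sum_comm
      _ = B * π (star (u i0 j0)) * B⁻¹ := by
          simp only [hY]
          simp
  · simp
  · intro a b ha hb
    rw [star_add, map_add, map_add, Matrix.mul_add, Matrix.add_mul, Matrix.mul_add,
      Matrix.add_mul, Matrix.conjTranspose_add, ha, hb]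
  · intro c a ha
    rw [hA.star_smul, map_smul, map_smul, Matrix.mul_smul, Matrix.smul_mul, Matrix.mul_smul,
      Matrix.smul_mul, Matrix.conjTranspose_smul, ha]
    rfl

end

end Pool.Agent.DQG
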